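import Mathlib

set_option autoImplicit false

namespace Pool.Agent.H.MP_a14c6f_co

open Complex ComplexConjugate Set

noncomputable def ze : ℂ := ⟨1 / 2, √3 / 2⟩

lemma s3 : √3 * √3 = 3 := Real.mul_self_sqrt (by norm_num)

lemma ze_sq : ze * ze = ze - 1 := by
  apply Complex.ext <;> simp [ze] <;> nlinarith [s3]

lemma ze_norm : ‖ze‖ = 1 := by
  have : ‖ze‖ ^ 2 = 1 := by
    rw [Complex.sq_norm, Complex.normSq_apply]; simp [ze]; nlinarith [s3]
  nlinarith [norm_nonneg ze]

lemma ze_ne : ze ≠ 0 := by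
  intro h; have := ze_norm; rw [h] at this; simp at this

lemma ze_conj : conj ze = ze⁻¹ := by
  rw [Complex.inv_def, Complex.normSq_eq_norm_sq, ze_norm]; simp

lemma ze_inv : ze⁻¹ = 1 - ze := by
  rw [eq_comm, ← mul_eq_one_iff_eq_inv₀ ze_ne]; linear_combination -ze_sq

lemma const_of {A : Type*} (f : ℤ → A) (h : ∀ j, f (j + 1) = f j) (j : ℤ) : f j = f 0 := by
  induction j using Int.induction_on with
  | zero => rfl
  | succ n ih => rw [h, ih]
  | pred n ih => rw [← ih, ← h]; congr 1; ring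

lemma ex_sum {A : Type*} [AddCommGroup A] (g : ℤ → A) :
    ∃ f : ℤ → A, f 0 = 0 ∧ ∀ j, f (j + 1) = f j + g j := by
  refine ⟨fun j => ∑ i ∈ Finset.range j.toNat, g i - ∑ i ∈ Finset.range (-j).toNat, g (-1 - i),
    by simp, fun j => ?_⟩
  rcases le_or_gt 0 j with h | h
  · obtain ⟨n, rfl⟩ := Int.eq_ofNat_of_zero_le h
    have e1 : ((n : ℤ) + 1).toNat = n + 1 := by omega
    have e2 : (-((n : ℤ) + 1)).toNat = 0 := by omega
    have e3 : (-(n : ℤ)).toNat = 0 := by omega
    simp only [e1, e2, e3, Int.toNat_natCast, Finset.sum_range_succ]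
    simp
  · obtain ⟨n, hn⟩ := Int.eq_ofNat_of_zero_le (show 0 ≤ -j - 1 by omega)
    have e1 : (j + 1).toNat = 0 := by omega
    have e2 : (-(j + 1)).toNat = n := by omega
    have e3 : (-j).toNat = n + 1 := by omega
    have e4 : j.toNat = 0 := by omega
    have e5 : -1 - (n : ℤ) = j := by omega
    simp only [e1, e2, e3, e4, Finset.sum_range_succ, e5]
    abel

def tn (q a j : ℤ) : ℤ := 1 - 2 * ((a * j / q) % 2)

noncomputable def L (p : ℤ → ℂ) (x : ℝ) : ℂ :=
  p ⌊x⌋ + ((x - ⌊x⌋ : ℝ) : ℂ) * (p (⌊x⌋ + 1) - p ⌊x⌋)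

lemma L_on (p : ℤ → ℂ) (j : ℤ) {x : ℝ} (h1 : (j : ℝ) ≤ x) (h2 : x ≤ j + 1) :
    L p x = p j + ((x - j : ℝ) : ℂ) * (p (j + 1) - p j) := by
  rcases h2.lt_or_eq with h | h
  · have : ⌊x⌋ = j := Int.floor_eq_iff.2 ⟨h1, h⟩
    rw [L, this]
  · have : ⌊x⌋ = j + 1 := by rw [h]; exact_mod_cast Int.floor_intCast (R := ℝ) (j + 1)
    rw [L, this, h]; push_cast; ring

lemma L_int (p : ℤ → ℂ) (j : ℤ) : L p j = p j := by simp [L]

lemma L_cont (p : ℤ → ℂ) : Continuous (L p) := by
  have h : ∀ j : ℤ, ContinuousOn (L p) (Icc (j : ℝ) (j + 1)) := fun j =>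
    ContinuousOn.congr (f := fun x : ℝ => p j + ((x - j : ℝ) : ℂ) * (p (j + 1) - p j))
      (by fun_prop) fun x hx => L_on p j hx.1 hx.2
  rw [continuous_iff_continuousAt]
  intro x
  have h1 := h (⌊x⌋ - 1)
  have h2 := (h1.union_of_isClosed (h ⌊x⌋) isClosed_Icc isClosed_Icc)
  refine h2.continuousAt (Filter.mem_of_superset
    (Icc_mem_nhds (a := (⌊x⌋ : ℝ) - 1) (b := ⌊x⌋ + 1) (by linarith [Int.floor_le x])
      (Int.lt_floor_add_one x)) fun y hy => ?_)
  rcases le_total y ⌊x⌋ with h | h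
  · left; constructor <;> push_cast <;> linarith [hy.1]
  · right; exact ⟨h, hy.2⟩

lemma L_der (p : ℤ → ℂ) (k x : ℝ) (hk : 0 < k) :
    HasDerivWithinAt (fun y => L p (k * y)) (k * (p (⌊k * x⌋ + 1) - p ⌊k * x⌋)) (Ici x) x := by
  set j := ⌊k * x⌋
  have h0 : HasDerivAt (fun y : ℝ => p j + ((k * y - j : ℝ) : ℂ) * (p (j + 1) - p j))
      (k * (p (j + 1) - p j)) x := by
    have := ((((hasDerivAt_id x).const_mul k).sub_const (j : ℝ)).ofReal_comp.mul_const
      (p (j + 1) - p j)).const_add (p j)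
    simpa using this
  refine h0.hasDerivWithinAt.congr_of_eventuallyEq ?_ rfl
  have hx : x < (j + 1) / k := by
    rw [lt_div_iff₀ hk, mul_comm]; exact Int.lt_floor_add_one _
  filter_upwards [Ico_mem_nhdsGE hx] with y hy
  refine L_on p j ?_ ?_
  · exact (Int.floor_le _).trans (mul_le_mul_of_nonneg_left hy.1 hk.le)
  · have := hy.2; rw [lt_div_iff₀ hk, mul_comm] at this; exact this.le

structure Dat (q a : ℤ) (d : ℤ → ℤ) (p : ℤ → ℂ) : Prop where
  q0 : 0 < q
  qo : q % 2 = 1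
  ae : a % 2 = 0
  co : ∃ m n, a * m + 1 = q * n
  d0 : d 0 = 0
  ds : ∀ j, d (j + 1) = d j + tn q a (j + 1)
  p0 : p 0 = 0
  ps : ∀ j, p (j + 1) = p j + ze ^ d j

namespace Dat

variable {q a : ℤ} {d : ℤ → ℤ} {p : ℤ → ℂ}

lemma tper (h : Dat q a d p) (j : ℤ) : tn q a (j + q) = tn q a j := by
  have : a * (j + q) / q = a * j / q + a := by
    rw [mul_add, Int.add_mul_ediv_right _ _ h.q0.ne']
  have := h.ae
  unfold tn; omega

lemma negdiv (hq : 0 < q) (y : ℤ) : (-y - 1) / q = -(y / q) - 1 := by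
  have h1 := Int.emod_nonneg y hq.ne'
  have h2 := Int.emod_lt_of_pos y hq
  have h3 := Int.mul_ediv_add_emod y q
  rw [Int.ediv_eq_iff_of_pos hq]
  constructor <;> nlinarith

lemma tneg (h : Dat q a d p) {j : ℤ} (h1 : 0 < j) (h2 : j < q) : tn q a (q - j) = -tn q a j := by
  obtain ⟨m, n, e⟩ := h.co
  have hq := h.q0
  have r0 : a * j % q ≠ 0 := by
    intro r
    have h3 : q ∣ j := by
      have : q ∣ a * j := Int.dvd_of_emod_eq_zero r
      have e2 : j = q * (n * j) - m * (a * j) := by linear_combination j * e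
      rw [e2]; exact dvd_sub (dvd_mul_right _ _) (this.mul_left _)
    exact absurd (Int.le_of_dvd h1 h3) (by omega)
  have : a * (q - j) / q = a - a * j / q - 1 := by
    have h1 := Int.emod_nonneg (a * j) hq.ne'
    have h2 := Int.emod_lt_of_pos (a * j) hq
    have h3 := Int.mul_ediv_add_emod (a * j) q
    have h4 : 1 ≤ a * j % q := by omega
    rw [Int.ediv_eq_iff_of_pos hq]
    constructor <;> nlinarith
  have := h.ae
  unfold tn; omega

lemma d2' (h : Dat q a d p) (j : ℕ) (hj : (j : ℤ) < q) : d (q - 1 - j) = d j + d (q - 1) := by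
  induction j with
  | zero => simp [h.d0]
  | succ n ih =>
    push_cast at hj ⊢
    have e1 := h.ds (q - 1 - (n + 1))
    have e2 := h.tneg (j := n + 1) (by omega) hj
    rw [show q - 1 - ((n : ℤ) + 1) + 1 = q - (n + 1) by ring, e2,
      show q - ((n : ℤ) + 1) = q - 1 - n by ring, ih (by omega)] at e1
    rw [h.ds n]; omega

lemma dq1 (h : Dat q a d p) : d (q - 1) = 0 := by
  have hq := h.q0
  have := h.d2' (q - 1).toNat (by omega)
  rw [show ((q - 1).toNat : ℤ) = q - 1 by omega, sub_self, h.d0] at this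
  omega

lemma d2 (h : Dat q a d p) {j : ℤ} (h0 : 0 ≤ j) (hj : j < q) : d (q - 1 - j) = d j := by
  obtain ⟨n, rfl⟩ := Int.eq_ofNat_of_zero_le h0
  rw [h.d2' n hj, h.dq1, add_zero]

lemma d1 (h : Dat q a d p) (j : ℤ) : d (j + q) = d j + 1 := by
  have := const_of (fun j => d (j + q) - d j) (fun j => by
    have e := h.tper (j + 1)
    have e1 := h.ds (j + q)
    have e2 := h.ds j
    rw [show j + q + 1 = j + 1 + q by ring] at e1
    show d (j + 1 + q) - d (j + 1) = d (j + q) - d j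
    omega) j
  have e1 := h.ds (q - 1)
  have e2 := h.tper 0
  have e3 : tn q a 0 = 1 := by simp [tn]
  have e4 := h.dq1
  have e5 := h.d0
  simp only [zero_add, sub_add_cancel] at this e1 e2
  omega

lemma d3 (h : Dat q a d p) : ∃ m C : ℤ, ∀ j, d (m - 1 - j) = C - d j := by
  obtain ⟨m, n, e⟩ := h.co
  have hn : n % 2 = 1 := by
    have h1 : Odd (q * n) := by
      rw [← e]; exact (Even.mul_right (Int.even_iff.2 h.ae) m).add_one
    exact Int.odd_iff.1 (Int.odd_mul.1 h1).2
  have ht : ∀ j, tn q a (m - j) = tn q a j := fun j => by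
    have : a * (m - j) / q = -(a * j / q) - 1 + n := by
      rw [show a * (m - j) = -(a * j) - 1 + n * q by linear_combination e,
        Int.add_mul_ediv_right _ _ h.q0.ne', negdiv h.q0]
    unfold tn; omega
  refine ⟨m, d (m - 1) + d 0, fun j => ?_⟩
  have := const_of (fun j => d (m - 1 - j) + d j) (fun j => by
    have e1 := h.ds (m - 1 - (j + 1))
    have e2 := h.ds j
    rw [show m - 1 - (j + 1) + 1 = m - (j + 1) by ring, ht,
      show m - (j + 1) = m - 1 - j by ring] at e1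
    show d (m - 1 - (j + 1)) + d (j + 1) = d (m - 1 - j) + d j
    omega) j
  simp only [sub_zero] at this
  omega

variable {c : ℂ}

lemma p1 (h : Dat q a d p) (hc : c * p q = ze - 1) (j : ℤ) :
    1 + c * p (j + q) = ze * (1 + c * p j) := by
  have := const_of (fun j => 1 + c * p (j + q) - ze * (1 + c * p j)) (fun j => by
    show 1 + c * p (j + 1 + q) - ze * (1 + c * p (j + 1)) = 1 + c * p (j + q) - ze * (1 + c * p j)
    rw [show j + 1 + q = j + q + 1 by ring, h.ps, h.ps, h.d1, zpow_add_one₀ ze_ne]; ring) j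
  simp only [zero_add, h.p0] at this
  linear_combination this + hc

lemma p2 (h : Dat q a d p) {j : ℤ} (h0 : 0 ≤ j) (hj : j ≤ q) : p (q - j) = p q - p j := by
  obtain ⟨n, rfl⟩ := Int.eq_ofNat_of_zero_le h0
  induction n with
  | zero => simp [h.p0]
  | succ n ih =>
    push_cast at hj ⊢
    have e1 := h.ps (q - 1 - n)
    rw [h.d2 (by omega) (by omega), show q - 1 - n + 1 = q - n by ring,
      ih (by omega) (by omega)] at e1
    rw [show q - ((n : ℤ) + 1) = q - 1 - n by ring, h.ps]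
    linear_combination -e1

lemma c_ne (hc : c * p q = ze - 1) : c ≠ 0 := by
  rintro rfl
  have : ze * ze = 0 := by rw [ze_sq, ← hc, zero_mul]
  exact ze_ne (mul_self_eq_zero.1 this)

lemma p3 (h : Dat q a d p) (hc : c * p q = ze - 1) : ∃ (m : ℤ) (w : ℂ), ‖w‖ = 1 ∧
    ∀ j, 1 + c * p (m - j) = w * conj (1 + c * p j) := by
  obtain ⟨m, C, e⟩ := h.d3
  have c0 := c_ne hc
  have c1 : conj c ≠ 0 := by simpa using c0
  set w := -(c * ze ^ C) / conj c with hw
  have hw' : w * conj c = -(c * ze ^ C) := by rw [hw]; field_simp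
  refine ⟨m, w, by simp [hw, ze_norm, c0], ?_⟩
  have k := const_of (fun j => 1 + c * p (m - j) - w * conj (1 + c * p j)) (fun j => by
    show 1 + c * p (m - (j + 1)) - w * conj (1 + c * p (j + 1))
      = 1 + c * p (m - j) - w * conj (1 + c * p j)
    have e1 := h.ps (m - 1 - j)
    rw [e, show m - 1 - j + 1 = m - j by ring, zpow_sub₀ ze_ne] at e1
    rw [show m - (j + 1) = m - 1 - j by ring, e1, h.ps]
    simp only [map_add, map_mul, map_zpow₀, ze_conj, inv_zpow]
    linear_combination -(ze ^ d j)⁻¹ * hw')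
  intro j
  have k1 := k j
  have k2 := k (j + q)
  have k3 := h.p1 hc (m - (j + q))
  rw [h.p1 hc j, map_mul, ze_conj, ← k1] at k2
  rw [show m - (j + q) + q = m - j by ring] at k3
  have k4 : ze * ze⁻¹ = 1 := mul_inv_cancel₀ ze_ne
  have k5 : (ze - 1) * (1 + c * p (m - j) - w * conj (1 + c * p j)) = 0 := by
    linear_combination -ze * k2 - k3 - w * conj (1 + c * p j) * k4
  rw [← ze_sq] at k5
  exact sub_eq_zero.1 ((mul_eq_zero.1 k5).resolve_left (mul_ne_zero ze_ne ze_ne))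

end Dat

end Pool.Agent.H.MP_a14c6f_co
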