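import Pool.Agent.H.MP_a14c6f_co.A

set_option autoImplicit false

namespace Pool.Agent.H.MP_a14c6f_co

open Complex ComplexConjugate Set

def Good (q : ℤ) (X : ℝ → ℂ) : Prop :=
  ∃ a d p c, Dat q a d p ∧ c * p q = ze - 1 ∧ ∀ s, X s = 1 + c * L p (q * s)

def Sym (X : ℝ → ℂ) : Prop :=
  (∀ s, X (s + 1) = ze * X s) ∧ ∀ s, 0 ≤ s → s ≤ 1 → X (1 - s) = 1 + ze - X s

lemma Good.pos {q : ℤ} {X : ℝ → ℂ} (h : Good q X) : 0 < q := by
  obtain ⟨a, d, p, c, h, -, -⟩ := h; exact h.q0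

lemma Good.cont {q : ℤ} {X : ℝ → ℂ} (h : Good q X) : Continuous X := by
  obtain ⟨a, d, p, c, h, hc, e⟩ := h
  rw [funext e]
  have := L_cont p
  fun_prop

lemma Good.sym {q : ℤ} {X : ℝ → ℂ} (h : Good q X) : Sym X := by
  obtain ⟨a, d, p, c, h, hc, e⟩ := h
  have hq : (0 : ℝ) < q := by exact_mod_cast h.q0
  refine ⟨fun s => ?_, fun s h0 h1 => ?_⟩
  · have f1 := Int.floor_le (q * s)
    have f2 := (Int.lt_floor_add_one (q * s)).le
    set j := ⌊q * s⌋
    rw [e, e, L_on p j f1 f2, L_on p (j + q) (by push_cast; linarith) (by push_cast; linarith)]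
    have k1 := h.p1 hc j
    have k2 := h.p1 hc (j + 1)
    rw [show j + 1 + q = j + q + 1 by ring] at k2
    push_cast
    linear_combination k1 + ((q : ℂ) * s - j) * (k2 - k1)
  · obtain ⟨j, j0, j1, f1, f2⟩ : ∃ j : ℤ, 0 ≤ j ∧ j + 1 ≤ q ∧ (j : ℝ) ≤ q * s ∧ q * s ≤ j + 1 := by
      rcases h1.lt_or_eq with h1 | h1
      · refine ⟨⌊q * s⌋, Int.floor_nonneg.2 (by positivity), ?_, Int.floor_le _,
          (Int.lt_floor_add_one _).le⟩
        have : ⌊q * s⌋ < q := Int.floor_lt.2 (by nlinarith)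
        omega
      · refine ⟨q - 1, by have := h.q0; omega, by omega, ?_, ?_⟩ <;> rw [h1] <;> push_cast <;>
          linarith
    rw [e, e, L_on p j f1 f2, L_on p (q - (j + 1)) (by push_cast; linarith)
      (by push_cast; linarith), show q - (j + 1) + 1 = q - j by ring, h.p2 j0 (by omega),
      h.p2 (j := j + 1) (by omega) j1]
    push_cast
    linear_combination hc

lemma Good.mir {q : ℤ} {X : ℝ → ℂ} (h : Good q X) :
    ∃ w : ℂ, ‖w‖ = 1 ∧ ∀ s, ∃ t, X t = w * conj (X s) := by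
  obtain ⟨a, d, p, c, h, hc, e⟩ := h
  have hq : (0 : ℝ) < q := by exact_mod_cast h.q0
  obtain ⟨m, w, hw, k⟩ := h.p3 hc
  refine ⟨w, hw, fun s => ⟨m / q - s, ?_⟩⟩
  have f1 := Int.floor_le (q * s)
  have f2 := (Int.lt_floor_add_one (q * s)).le
  set j := ⌊q * s⌋
  have e1 : q * (m / q - s) = m - q * s := by field_simp
  rw [e, e, e1, L_on p j f1 f2, L_on p (m - (j + 1)) (by push_cast; linarith)
    (by push_cast; linarith), show m - (j + 1) + 1 = m - j by ring]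
  have k1 := k j
  have k2 := k (j + 1)
  simp only [map_add, map_mul, map_sub, conj_ofReal, map_one] at k1 k2 ⊢
  push_cast
  linear_combination k1 + ((q : ℂ) * s - j) * (k2 - k1)

lemma tn_cases (q a j : ℤ) : tn q a j = 1 ∨ tn q a j = -1 := by unfold tn; omega

lemma chord0 (a b : ℝ) (ha : 0 ≤ a) (hb : 0 ≤ b) {t : ℤ} (ht : t = 1 ∨ t = -1) :
    6 / 7 * (a + b) ≤ ‖(a : ℂ) + b * ze ^ t‖ := by
  apply le_of_sq_le_sq _ (norm_nonneg _)
  rw [Complex.sq_norm, Complex.normSq_apply]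
  have : b * (√3 / 2) * (b * (√3 / 2)) = 3 / 4 * b * b := by linear_combination (b * b / 4) * s3
  rcases ht with rfl | rfl
  · simp [ze]; nlinarith [sq_nonneg (a - b), mul_nonneg ha hb]
  · rw [zpow_neg_one, ze_inv]; simp [ze]; nlinarith [sq_nonneg (a - b), mul_nonneg ha hb]

lemma Dat.chord {q a : ℤ} {d : ℤ → ℤ} {p : ℤ → ℂ} (h : Dat q a d p) {x y : ℝ} (h1 : x ≤ y)
    (h2 : y ≤ x + 1) : 6 / 7 * (y - x) ≤ ‖L p y - L p x‖ := by
  have f1 := Int.floor_le x
  have f2 := (Int.lt_floor_add_one x).le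
  set j := ⌊x⌋
  have hz : ‖ze ^ d j‖ = 1 := by simp [ze_norm]
  rcases le_total y (j + 1) with h3 | h3
  · rw [L_on p j f1 f2, L_on p j (by linarith) h3, h.ps,
      show ∀ u v w : ℂ, u + ((y - j : ℝ) : ℂ) * (v + w - v) - (u + ((x - j : ℝ) : ℂ) * (v + w - v))
        = ((y - x : ℝ) : ℂ) * w from fun u v w => by push_cast; ring, norm_mul, hz,
      Complex.norm_real, Real.norm_of_nonneg (by linarith)]
    linarith
  · have := chord0 (j + 1 - x) (y - (j + 1)) (by linarith) (by linarith) (tn_cases q a (j + 1))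
    rw [L_on p j f1 f2, L_on p (j + 1) (by push_cast; linarith) (by push_cast; linarith),
      h.ps (j + 1), h.ps j, h.ds j, zpow_add₀ ze_ne]
    rw [show ∀ u : ℂ, ‖u‖ = ‖ze ^ d j * u‖ from fun u => by rw [norm_mul, hz, one_mul]] at this
    convert this using 2
    · ring
    · push_cast; ring

lemma Good.corner {q : ℤ} {X : ℝ → ℂ} (h : Good q X) (j : ℤ) :
    ((X ((j + 1) / q) - X (j / q)) * conj (X ((j + 2) / q) - X (j / q))).im ≠ 0 := by
  obtain ⟨a, d, p, c, h, hc, e⟩ := h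
  have hq : (q : ℝ) ≠ 0 := by exact_mod_cast h.q0.ne'
  have e0 : ∀ k : ℤ, X (k / q) = 1 + c * p k := fun k => by
    rw [e, mul_div_cancel₀ _ hq, L_int]
  have e1 := e0 (j + 1)
  have e2 := e0 (j + 1 + 1)
  push_cast at e1 e2
  rw [show (j : ℝ) + 2 = j + 1 + 1 by ring, e1, e2, e0, h.ps (j + 1), h.ps j, h.ds j,
    zpow_add₀ ze_ne]
  have c0 : c * ze ^ d j ≠ 0 := mul_ne_zero (Dat.c_ne hc) (zpow_ne_zero _ ze_ne)
  have : (1 + c * (p j + ze ^ d j) - (1 + c * p j)) * conj (1 + c * (p j + ze ^ d j +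
      ze ^ d j * ze ^ tn q a (j + 1)) - (1 + c * p j)) =
      (normSq (c * ze ^ d j) : ℂ) * conj (1 + ze ^ tn q a (j + 1)) := by
    rw [← Complex.mul_conj, mul_assoc, ← map_mul]; congr 1
    · ring
    · congr 1; ring
  rw [this, Complex.im_ofReal_mul]
  refine mul_ne_zero (fun h0 => c0 (Complex.normSq_eq_zero.1 h0)) ?_
  have : √3 ≠ 0 := by positivity
  rcases tn_cases q a (j + 1) with t | t <;> rw [t]
  · simp [ze]
  · rw [zpow_neg_one, ze_inv]; simp [ze]

lemma key {q a o : ℤ} {d D : ℤ → ℤ} {p P : ℤ → ℂ} (h : Dat q a d p) (ho : o % 2 = 1)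
    (hQ : q < o * q + a) (H : Dat (o * q + a) (o * q + a - q) D P) {i j : ℤ}
    (h1 : j * (o * q + a) < q * (i + 1)) (h2 : q * i ≤ (j + 1) * (o * q + a)) :
    D i = d j + (i - j) % 2 := by
  have hq := h.q0
  generalize hQ' : o * q + a = Q at *
  have k0 : ∀ i j : ℤ, q * i ≤ (j + 1) * Q → (j + 1) * Q < q * (i + 1) →
      d j + (i - j) % 2 = d (j + 1) + (i - (j + 1)) % 2 := fun i j h1 h2 => by
    have e : a * (j + 1) / q = i - o * (j + 1) := by
      rw [Int.ediv_eq_iff_of_pos hq]; rw [← hQ'] at h1 h2; constructor <;> nlinarith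
    have e2 : (o * (j + 1)) % 2 = (j + 1) % 2 := by rw [Int.mul_emod, ho]; simp
    rw [h.ds, tn, e]; omega
  have k1 : ∀ i j j' : ℤ, j * Q < q * (i + 1) → q * i ≤ (j + 1) * Q → j' * Q < q * (i + 1) →
      q * i ≤ (j' + 1) * Q → d j + (i - j) % 2 = d j' + (i - j') % 2 := by
    intro i j j' a1 a2 a3 a4
    have b1 : j' < j + 2 := by by_contra hh; nlinarith
    have b2 : j < j' + 2 := by by_contra hh; nlinarith
    obtain rfl | rfl | rfl : j' = j ∨ j' = j + 1 ∨ j = j' + 1 := by omega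
    · rfl
    · exact k0 i j a2 a3
    · exact (k0 i j' a4 a1).symm
  have hK : ∀ i : ℤ, (-(-(q * i) / Q) - 1) * Q < q * i ∧ q * i ≤ (-(-(q * i) / Q) - 1 + 1) * Q :=
    fun i => by
      have h1 := Int.emod_nonneg (-(q * i)) H.q0.ne'
      have h2 := Int.emod_lt_of_pos (-(q * i)) H.q0
      have h3 := Int.mul_ediv_add_emod (-(q * i)) Q
      constructor <;> nlinarith
  have := const_of (fun i => D i - (d (-(-(q * i) / Q) - 1) + (i - (-(-(q * i) / Q) - 1)) % 2))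
    (fun i => by
      have e : (Q - q) * (i + 1) / Q = -(q * (i + 1)) / Q + (i + 1) := by
        rw [← Int.add_mul_ediv_right _ _ H.q0.ne']; congr 1; ring
      have := k1 i _ _ (by nlinarith [(hK i).1]) (hK i).2 (hK (i + 1)).1
        (by nlinarith [(hK (i + 1)).2])
      simp only [H.ds, tn, e]
      omega) i
  have e1 := h.ds (-1)
  have e2 := k1 i _ j (by nlinarith [(hK i).1]) (hK i).2 h1 h2
  simp [H.d0, h.d0, tn] at this e1
  omega

end Pool.Agent.H.MP_a14c6f_co
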