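import Pool.Agent.H.MP_a14c6f_co.B

set_option autoImplicit false

namespace Pool.Agent.H.MP_a14c6f_co

open Complex ComplexConjugate Set

lemma ex_dat {q a : ℤ} (h1 : 0 < q) (h2 : q % 2 = 1) (h3 : a % 2 = 0)
    (h4 : ∃ m n, a * m + 1 = q * n) : ∃ d p, Dat q a d p := by
  obtain ⟨d, d0, ds⟩ := ex_sum fun j => tn q a (j + 1)
  obtain ⟨p, p0, ps⟩ := ex_sum fun j => ze ^ d j
  exact ⟨d, p, h1, h2, h3, h4, d0, ds, p0, ps⟩

noncomputable def ta : ℂ := ⟨0, √3 / 3⟩

lemma om0 : (1 + ze) / 2 * (1 - ta) = 1 := by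
  rw [div_mul_eq_mul_div, div_eq_iff two_ne_zero]
  apply Complex.ext <;> simp [ze, ta] <;> nlinarith [s3]

lemma om1 : (1 + ze) / 2 * (1 + ta) = ze := by
  rw [div_mul_eq_mul_div, div_eq_iff two_ne_zero]
  apply Complex.ext <;> simp [ze, ta] <;> nlinarith [s3]

lemma ta_norm : ‖ta‖ ≤ 58 / 100 := by
  apply le_of_sq_le_sq _ (by norm_num)
  rw [Complex.sq_norm, Complex.normSq_apply]; simp [ta]; nlinarith [s3]

lemma hf_le : ‖(1 + ze) / 2‖ ≤ 1 := by
  have := norm_add_le 1 ze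
  rw [norm_div]; simp [ze_norm] at this ⊢; linarith

lemma hf_ge : 1 / 2 ≤ ‖(1 + ze) / 2‖ := by
  refine le_trans ?_ (Complex.re_le_norm _)
  simp [ze]; norm_num

noncomputable def W : ℝ → ℂ := L fun i => ((i % 2 : ℤ) : ℂ)

lemma W_le (x : ℝ) : ‖W x‖ ≤ 1 := by
  have f1 := Int.floor_le x
  have f2 := (Int.lt_floor_add_one x).le
  unfold W L
  beta_reduce
  rcases Int.emod_two_eq_zero_or_one ⌊x⌋ with h | h
  · rw [h, show (⌊x⌋ + 1) % 2 = 1 by omega]
    simp only [Int.cast_zero, Int.cast_one, zero_add, sub_zero, mul_one, Complex.norm_real]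
    rw [Real.norm_eq_abs, abs_le]; constructor <;> linarith
  · rw [h, show (⌊x⌋ + 1) % 2 = 0 by omega, show ((1 : ℤ) : ℂ) + ((x - ⌊x⌋ : ℝ) : ℂ) *
      (((0 : ℤ) : ℂ) - ((1 : ℤ) : ℂ)) = ((1 - (x - ⌊x⌋) : ℝ) : ℂ) by push_cast; ring,
      Complex.norm_real, Real.norm_eq_abs, abs_le]
    constructor <;> linarith

lemma dir {q a o : ℤ} {d D : ℤ → ℤ} {p P : ℤ → ℂ} (h : Dat q a d p) (ho : o % 2 = 1)
    {Q : ℤ} (hQ' : o * q + a = Q) (hQ : q < Q) (H : Dat Q (Q - q) D P) (s : ℝ) :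
    ze ^ D ⌊Q * s⌋ = ze ^ d ⌊q * s⌋ * ((1 + ze) / 2) *
      (1 + ((2 * ((⌊Q * s⌋ - ⌊q * s⌋) % 2) - 1 : ℤ) : ℂ) * ta) := by
  have hq : (0 : ℝ) < q := by exact_mod_cast h.q0
  have hq' : (0 : ℝ) < Q := by exact_mod_cast H.q0
  have f1 := Int.floor_le (q * s)
  have f2 := Int.lt_floor_add_one (q * s)
  have f3 := Int.floor_le (Q * s)
  have f4 := Int.lt_floor_add_one (Q * s)
  subst hQ'
  have := key h ho hQ H (i := ⌊(o * q + a : ℤ) * s⌋) (j := ⌊q * s⌋)
    (by apply Int.cast_lt (R := ℝ) |>.1; rw [Int.cast_mul, Int.cast_mul q]; push_cast at *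
        nlinarith)
    (by apply Int.cast_le (R := ℝ) |>.1; rw [Int.cast_mul, Int.cast_mul _ (o * q + a)]
        push_cast at *; nlinarith)
  rw [this, zpow_add₀ ze_ne, mul_assoc]
  congr 1
  rcases Int.emod_two_eq_zero_or_one (⌊(o * q + a : ℤ) * s⌋ - ⌊q * s⌋) with e | e <;> rw [e]
  · rw [zpow_zero]; conv_lhs => rw [← om0]
    push_cast; ring
  · rw [zpow_one]; conv_lhs => rw [← om1]
    push_cast; ring

lemma err {q a o : ℤ} {d D : ℤ → ℤ} {p P : ℤ → ℂ} (h : Dat q a d p) (ho : o % 2 = 1)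
    {Q : ℤ} (hQ' : o * q + a = Q) (hQ : q < Q) (H : Dat Q (Q - q) D P) {s : ℝ} (s0 : 0 ≤ s)
    (s1 : s ≤ 1) : ‖L P (Q * s) - Q / q * ((1 + ze) / 2) * L p (q * s)‖ ≤ 2 * q + 2 := by
  have hq : (0 : ℝ) < q := by exact_mod_cast h.q0
  have hq' : (0 : ℝ) < Q := by exact_mod_cast H.q0
  have hqc : (q : ℂ) ≠ 0 := by exact_mod_cast h.q0.ne'
  set E : ℝ → ℂ := fun s => L P (Q * s) - Q / q * ((1 + ze) / 2) * L p (q * s) with hE
  have step : ∀ j : ℤ, ∀ s ∈ Icc (j / q : ℝ) ((j + 1) / q), ‖E s - E (j / q)‖ ≤ 2 := by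
    intro j s hs
    set u : ℂ := ze ^ d j * ((1 + ze) / 2) * (((2 * (j % 2) - 1 : ℤ) : ℂ) * ta) with hu
    have hun : ‖u‖ ≤ 1 := by
      have e : ‖((2 * (j % 2) - 1 : ℤ) : ℂ)‖ = 1 := by
        rcases Int.emod_two_eq_zero_or_one j with e | e <;> rw [e] <;> norm_num
      rw [hu, norm_mul, norm_mul, norm_mul, e, norm_zpow, ze_norm, one_zpow]
      nlinarith [hf_le, ta_norm, norm_nonneg ta, norm_nonneg ((1 + ze) / 2)]
    have := constant_of_has_deriv_right_zero (f := fun s => E s - u * W (Q * s))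
      (a := j / q) (b := (j + 1) / q) (by
        have := L_cont p
        have := L_cont P
        have : Continuous W := L_cont _
        rw [hE]; fun_prop) (fun x hx => by
        have e : ⌊q * x⌋ = j := by
          have h1 := hx.1
          have h2 := hx.2
          rw [div_le_iff₀ hq] at h1
          rw [lt_div_iff₀ hq] at h2
          rw [Int.floor_eq_iff]; constructor <;> linarith
        have := ((L_der P Q x hq').sub ((L_der p q x hq).const_mul
          ((Q : ℂ) / q * ((1 + ze) / 2)))).sub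
          ((L_der (fun i => ((i % 2 : ℤ) : ℂ)) Q x hq').const_mul u)
        refine this.congr_deriv ?_
        rw [H.ps, h.ps, dir h ho hQ' hQ H, e, hu]
        have : (2 * ((⌊Q * x⌋ - j) % 2) - 1 : ℤ) =
            (2 * (j % 2) - 1) * ((⌊Q * x⌋ + 1) % 2 - ⌊Q * x⌋ % 2) := by
          rcases Int.emod_two_eq_zero_or_one j with e1 | e1 <;>
            rcases Int.emod_two_eq_zero_or_one ⌊Q * x⌋ with e2 | e2 <;> rw [e1, e2] <;> omega
        rw [this]
        push_cast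
        field_simp
        ring) s hs
    have e : E s - E (j / q) = u * W (Q * s) - u * W (Q * (j / q)) := by linear_combination this
    rw [e, ← mul_sub, norm_mul]
    have := norm_sub_le (W (Q * s)) (W (Q * (j / q)))
    nlinarith [W_le (Q * s), W_le (Q * (j / q)), norm_nonneg u,
      norm_nonneg (W (Q * s) - W (Q * (j / q)))]
  have ind : ∀ n : ℕ, ‖E (n / q)‖ ≤ 2 * n := by
    intro n
    induction n with
    | zero => simpa [hE] using by rw [← Int.cast_zero, L_int, L_int, H.p0, h.p0]; simp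
    | succ n ih =>
      have := step n ((n + 1) / q) ⟨by push_cast; gcongr; linarith, by push_cast; rfl⟩
      have := norm_le_norm_add_norm_sub' (E ((n + 1) / q)) (E (n / q))
      push_cast at *
      linarith
  obtain ⟨n, hn⟩ := Int.eq_ofNat_of_zero_le (Int.floor_nonneg.2 (show 0 ≤ q * s by positivity))
  have f1 := Int.floor_le (q * s)
  have f2 := Int.lt_floor_add_one (q * s)
  rw [hn] at f1 f2
  have := step n s ⟨by rw [div_le_iff₀ hq]; linarith, by rw [le_div_iff₀ hq]; linarith⟩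
  have := norm_le_norm_add_norm_sub' (E s) (E (n / q))
  have := ind n
  push_cast at *
  nlinarith

lemma refine {q : ℤ} {X : ℝ → ℂ} (h : Good q X) {ε : ℝ} (hε : 0 < ε) (N : ℝ) :
    ∃ (Q : ℤ) (Y : ℝ → ℂ), Good Q Y ∧ N ≤ Q ∧ (∀ s, ‖Y s - X s‖ ≤ ε) ∧
      ∀ s t : ℝ, |s - t| ≤ 1 / q → ‖Y s - X s - (Y t - X t)‖ ≤ 7 / 10 * ‖X s - X t‖ := by
  have hX := h.sym
  obtain ⟨M, hM⟩ := (isCompact_Icc (a := (0 : ℝ)) (b := 1)).exists_bound_of_continuousOn
    (f := fun s => X s - 1) (h.cont.sub continuous_const).continuousOn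
  have M0 : 0 ≤ M := (norm_nonneg _).trans (hM 0 (by simp))
  obtain ⟨a, d, p, c, h, hc, e⟩ := h
  have hq : (1 : ℝ) ≤ q := by exact_mod_cast h.q0
  have hqc : (q : ℂ) ≠ 0 := by exact_mod_cast h.q0.ne'
  have c0 : 0 < ‖c‖ := norm_pos_iff.2 (Dat.c_ne hc)
  obtain ⟨η, η0, η1, η2⟩ : ∃ η : ℝ, 0 < η ∧ η ≤ 1 / 100 ∧ η * (1 + M) ≤ ε :=
    ⟨min (1 / 100) (ε / (1 + M)), by positivity, min_le_left _ _,
      (le_div_iff₀ (by positivity)).1 (min_le_right _ _)⟩
  obtain ⟨k, hk⟩ := exists_nat_ge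
    (max (max ((q : ℝ) + 1) N) (2 * q * ‖c‖ * ((2 * q + 2) + (2 * q + 2) / η)) - a)
  obtain ⟨Q, hQ'⟩ : ∃ Q, (2 * k + 1) * q + a = Q := ⟨_, rfl⟩
  have hQ0 : max (max ((q : ℝ) + 1) N) (2 * q * ‖c‖ * ((2 * q + 2) + (2 * q + 2) / η)) ≤ (Q : ℝ) := by
    rw [← hQ']; push_cast; nlinarith [Nat.cast_nonneg (α := ℝ) k]
  simp only [max_le_iff] at hQ0
  obtain ⟨⟨hQ1, hQ2⟩, hQ3⟩ := hQ0
  have hQ : q < Q := by exact_mod_cast (show (q : ℝ) < Q by linarith)
  have hq' : (0 : ℝ) < Q := by linarith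
  have ho : (2 * (k : ℤ) + 1) % 2 = 1 := by omega
  have Qo : Q % 2 = 1 := by
    have := h.qo; have := h.ae
    have : Q = 2 * (k * q) + q + a := by rw [← hQ']; ring
    omega
  obtain ⟨D, P, H⟩ := ex_dat (q := Q) (a := Q - q) (by have := h.q0; omega) Qo
    (by have := h.qo; omega) (by
      obtain ⟨m, n, e⟩ := h.co
      exact ⟨(2 * k + 1) * m + n, (2 * k + 1) * m + n - m, by
        rw [← hQ']; linear_combination e⟩)
  have er := fun s => err h ho hQ' hQ H (s := s)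
  set κ : ℂ := Q / q * ((1 + ze) / 2) with hκ
  have e1 := er 1 zero_le_one le_rfl
  rw [mul_one, mul_one, L_int, L_int] at e1
  have z1 : ‖ze - 1‖ = 1 := by rw [← ze_sq, norm_mul, ze_norm, mul_one]
  have pq : ‖c‖ * ‖p q‖ = 1 := by rw [← norm_mul, hc, z1]
  have hP : (2 * q + 2) / η ≤ ‖P Q‖ := by
    have k1 : Q / q * (1 / 2) ≤ ‖κ‖ := by
      rw [hκ, norm_mul, norm_div, Complex.norm_intCast, Complex.norm_intCast, abs_of_pos hq',
        abs_of_pos (by linarith)]
      gcongr; exact hf_ge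
    have k2 := norm_le_norm_add_norm_sub (P Q) (κ * p q)
    have k3 : (2 * q + 2) + (2 * q + 2) / η ≤ Q / q * (1 / 2) * ‖p q‖ := by
      have : ‖p q‖ = 1 / ‖c‖ := by field_simp; linarith
      rw [this, show (Q : ℝ) / q * (1 / 2) * (1 / ‖c‖) = Q / (2 * q * ‖c‖) by field_simp,
        le_div_iff₀ (by positivity)]
      linarith
    rw [norm_mul] at k2
    nlinarith [norm_nonneg (p q)]
  have P0 : 0 < ‖P Q‖ := lt_of_lt_of_le (by positivity) hP
  set c' := (ze - 1) / P Q with hc'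
  have hc2 : c' * P Q = ze - 1 := div_mul_cancel₀ _ (norm_pos_iff.1 P0)
  have k4 : ‖c'‖ * (2 * q + 2) ≤ η := by
    rw [hc', norm_div, z1, div_mul_eq_mul_div, one_mul, div_le_iff₀ P0]
    rw [div_le_iff₀ η0] at hP; linarith
  have k5 : c' * κ - c = c * (ze * c' * (P Q - κ * p q)) := by
    linear_combination (ze * c' * κ) * hc - c * ze * hc2 + (c' * κ - c) * ze_sq
  set r := ze * c' * (P Q - κ * p q)
  have hr : ‖r‖ ≤ η := by
    rw [norm_mul, norm_mul, ze_norm, one_mul]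
    exact (mul_le_mul_of_nonneg_left e1 (norm_nonneg _)).trans k4
  clear_value r
  have G : Good Q fun s => 1 + c' * L P (Q * s) := ⟨_, D, P, c', H, hc2, fun _ => rfl⟩
  refine ⟨Q, _, G, hQ2, fun s => ?_, ?_⟩
  · have per := const_of (fun n : ℤ => ‖1 + c' * L P (Q * (Int.fract s + n)) - X (Int.fract s + n)‖)
      (fun n => by
        have := G.sym.1 (Int.fract s + n)
        beta_reduce at this
        push_cast
        rw [← add_assoc, this, hX.1, ← mul_sub, norm_mul, ze_norm, one_mul]) ⌊s⌋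
    simp only [Int.fract_add_floor, Int.cast_zero, add_zero] at per
    rw [per]
    have f0 := Int.fract_nonneg s
    have f1 := (Int.fract_lt_one s).le
    generalize Int.fract s = t at f0 f1
    have b1 := hM t ⟨f0, f1⟩
    have b2 := er t f0 f1
    rw [show 1 + c' * L P (Q * t) - X t = c' * (L P (Q * t) - κ * L p (q * t)) + r * (X t - 1) by
      rw [e]; linear_combination L p (q * t) * k5]
    refine (norm_add_le _ _).trans ?_
    rw [norm_mul, norm_mul]
    have := mul_le_mul_of_nonneg_left b2 (norm_nonneg c')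
    have := mul_le_mul hr b1 (norm_nonneg _) η0.le
    linarith
  · have lip : ∀ s t, t ≤ s → ‖1 + c' * L P (Q * s) - X s - (1 + c' * L P (Q * t) - X t)‖ ≤
        6 / 10 * (q * ‖c‖) * (s - t) := fun s t hst => by
      rw [funext e]
      refine norm_image_sub_le_of_norm_deriv_right_le_segment
        (f := fun s => 1 + c' * L P (Q * s) - (1 + c * L p (q * s))) (a := t) (b := s)
        (by have := L_cont p; have := L_cont P; fun_prop)
        (fun x _ => (((L_der P Q x hq').const_mul c').const_add 1).sub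
          (((L_der p q x (by linarith)).const_mul c).const_add 1)) (fun x _ => ?_) s ⟨hst, le_rfl⟩
      rw [H.ps, h.ps, dir h ho hQ' hQ H]
      set σ : ℂ := ((2 * ((⌊Q * x⌋ - ⌊q * x⌋) % 2) - 1 : ℤ) : ℂ) with hσ
      have e : ‖σ‖ = 1 := by
        rcases Int.emod_two_eq_zero_or_one (⌊Q * x⌋ - ⌊q * x⌋) with e | e <;> rw [hσ, e] <;>
          norm_num
      have e2 : c' * Q * ((1 + ze) / 2) = q * c * (1 + r) := by
        have : (q : ℂ) * κ = Q * ((1 + ze) / 2) := by rw [hκ]; field_simp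
        linear_combination q * k5 - c' * this
      rw [show ∀ u v : ℂ, c' * (((Q : ℝ) : ℂ) * (u + ze ^ d ⌊q * x⌋ * ((1 + ze) / 2) *
        (1 + σ * ta) - u)) - c * (((q : ℝ) : ℂ) * (v + ze ^ d ⌊q * x⌋ - v)) =
        q * c * ze ^ d ⌊q * x⌋ * (r + (1 + r) * (σ * ta)) from fun u v => by
          push_cast; linear_combination ze ^ d ⌊q * x⌋ * (1 + σ * ta) * e2]
      rw [norm_mul, norm_mul, norm_mul, norm_zpow, ze_norm, one_zpow, mul_one,
        Complex.norm_intCast, abs_of_pos (by linarith), mul_comm]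
      gcongr
      refine (norm_add_le _ _).trans ?_
      rw [norm_mul, norm_mul, e]
      have := norm_add_le 1 r
      rw [norm_one] at this
      nlinarith [ta_norm, norm_nonneg ta, norm_nonneg (1 + r)]
    have fin : ∀ s t : ℝ, t ≤ s → s - t ≤ 1 / q → ‖1 + c' * L P (Q * s) - X s -
        (1 + c' * L P (Q * t) - X t)‖ ≤ 7 / 10 * ‖X s - X t‖ := fun s t h1 h2 => by
      refine (lip s t h1).trans ?_
      rw [le_div_iff₀ (by linarith)] at h2
      have := h.chord (x := q * t) (y := q * s) (by nlinarith) (by nlinarith)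
      rw [e, e, add_sub_add_left_eq_sub, ← mul_sub, norm_mul]
      nlinarith
    intro s t hst
    rw [abs_le] at hst
    rcases le_total t s with h1 | h1
    · exact fin s t h1 hst.2
    · rw [norm_sub_rev, norm_sub_rev (X s)]; exact fin t s h1 (by linarith)

end Pool.Agent.H.MP_a14c6f_co
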