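import Pool.Agent.H.MP_a14c6f_co.C

set_option autoImplicit false

namespace Pool.Agent.H.MP_a14c6f_co

open Complex ComplexConjugate Set

noncomputable def al (z : ℂ) : ℝ := z.re - z.im * (√3 / 3)
noncomputable def be (z : ℂ) : ℝ := z.im * (2 * √3 / 3)

lemma al_add (z w : ℂ) : al (z + w) = al z + al w := by simp [al]; ring
lemma be_add (z w : ℂ) : be (z + w) = be z + be w := by simp [be]; ring
lemma al_sub (z w : ℂ) : al (z - w) = al z - al w := by simp [al]; ring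
lemma be_sub (z w : ℂ) : be (z - w) = be z - be w := by simp [be]; ring
lemma al_mul (t : ℝ) (z : ℂ) : al (t * z) = t * al z := by simp [al]; ring
lemma be_mul (t : ℝ) (z : ℂ) : be (t * z) = t * be z := by simp [be]; ring
lemma al_ze (z : ℂ) : al (ze * z) = -be z := by
  simp [al, be, ze]; linear_combination (-z.re / 6) * s3
lemma be_ze (z : ℂ) : be (ze * z) = al z + be z := by
  simp [al, be, ze]; linear_combination (z.re / 3) * s3
lemma al_pt (x y : ℝ) : al (x + y * ze) = x := by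
  simp [al, ze]; linear_combination (-y / 6) * s3
lemma be_pt (x y : ℝ) : be (x + y * ze) = y := by
  simp [be, ze]; linear_combination (y / 3) * s3
lemma pt_eq (z : ℂ) : z = al z + be z * ze := by
  apply Complex.ext <;> simp [al, be, ze]
  · ring
  · linear_combination (-z.im / 3) * s3
lemma s3_le : √3 ≤ 2 := by nlinarith [s3, Real.sqrt_nonneg 3]
lemma al_le (z : ℂ) : |al z| ≤ 2 * ‖z‖ := by
  have h1 := abs_le.1 (Complex.abs_re_le_norm z)
  have h2 := abs_le.1 (Complex.abs_im_le_norm z)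
  rw [al, abs_le]; constructor <;> nlinarith [s3_le, Real.sqrt_nonneg 3, norm_nonneg z]
lemma be_le (z : ℂ) : |be z| ≤ 2 * ‖z‖ := by
  have h2 := abs_le.1 (Complex.abs_im_le_norm z)
  rw [be, abs_le]; constructor <;> nlinarith [s3_le, Real.sqrt_nonneg 3, norm_nonneg z]

lemma z2 : ze ^ 2 = ze - 1 := by rw [sq, ze_sq]
lemma z3 : ze ^ 3 = -1 := by linear_combination (ze + 1) * ze_sq
lemma z4 : ze ^ 4 = -ze := by linear_combination ze * z3
lemma z5 : ze ^ 5 = 1 - ze := by linear_combination ze ^ 2 * z3 - z2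
lemma z6 : ze ^ 6 = 1 := by linear_combination (ze ^ 3 - 1) * z3

lemma Sym.sh {X : ℝ → ℂ} (h : Sym X) (s : ℝ) (n : ℤ) : X (s + n) = ze ^ n * X s := by
  have := const_of (fun n : ℤ => (ze ^ n)⁻¹ * X (s + n)) (fun n => by
    have := ze_ne
    push_cast
    rw [← add_assoc, h.1, zpow_add_one₀ ze_ne]; field_simp) n
  simp only [zpow_zero, inv_one, one_mul, Int.cast_zero, add_zero] at this
  rw [← this, mul_inv_cancel_left₀ (zpow_ne_zero _ ze_ne)]

lemma Sym.shn {X : ℝ → ℂ} (h : Sym X) (s : ℝ) (n : ℕ) : X (s + n) = ze ^ n * X s := by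
  simpa using h.sh s n

noncomputable def ed (s : ℝ) : ℂ := ((1 - s : ℝ) : ℂ) + s * ze

lemma core {a b : ℤ} (hab : (a - b) % 3 = 0) {s t ρ : ℝ} (s0 : 0 ≤ s) (s1 : s ≤ 1) (t0 : 0 ≤ t)
    (t1 : t ≤ 1) (hρ : ρ ≤ 1 / 10) {r : ℕ} (hr : r < 6)
    (h1 : |al (a + b * ze + ze ^ r * ed s - ed t)| ≤ ρ)
    (h2 : |be (a + b * ze + ze ^ r * ed s - ed t)| ≤ ρ) :
    ∃ u v : ℝ, |u - v| ≤ 4 * ρ ∧
      ∀ X, Sym X → a + b * ze + ze ^ r * X s - X t = X u - X v := by
  have e1 : al (a + b * ze) = a := by exact_mod_cast al_pt a b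
  have e2 : be (a + b * ze) = b := by exact_mod_cast be_pt a b
  have hI : ∀ {x : ℤ} {y : ℤ}, (x : ℝ) < y + 1 → x ≤ y := fun h => by
    have : _ < _ := Int.cast_lt (R := ℝ) |>.1 (h.trans_eq (by push_cast; rfl) : _ < ((_ + 1 : ℤ) : ℝ))
    omega
  rw [al_sub, al_add, e1, abs_le] at h1
  rw [be_sub, be_add, e2, abs_le] at h2
  obtain ⟨h1, h1'⟩ := h1
  obtain ⟨h2, h2'⟩ := h2
  interval_cases r <;>
    simp only [pow_succ', pow_zero, mul_assoc, one_mul, mul_one, al_ze, be_ze, ed, al_pt,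
      be_pt] at h1 h1' h2 h2'
  · have a1 : a ≤ 1 := hI (by push_cast; linarith)
    have a2 : -1 ≤ a := hI (by push_cast; linarith)
    have a3 : a + b ≤ 0 := hI (by push_cast; linarith)
    have a4 : 0 ≤ a + b := hI (by push_cast; linarith)
    obtain ⟨rfl, rfl⟩ : a = 0 ∧ b = 0 := by omega
    push_cast at *
    exact ⟨s, t, abs_le.2 ⟨by linarith, by linarith⟩, fun X hX => by ring⟩
  · have a1 : a ≤ 2 := hI (by push_cast; linarith)
    have a2 : 0 ≤ a := hI (by push_cast; linarith)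
    have a3 : b ≤ 0 := hI (by push_cast; linarith)
    have a4 : -1 ≤ b := hI (by push_cast; linarith)
    obtain ⟨rfl, rfl⟩ | ⟨rfl, rfl⟩ : a = 2 ∧ b = -1 ∨ a = 0 ∧ b = 0 := by omega
    · push_cast at *
      refine ⟨1 - s + (4 : ℕ), 1 - t + (3 : ℕ), abs_le.2 ⟨by push_cast; linarith,
        by push_cast; linarith⟩, fun X hX => ?_⟩
      rw [hX.shn, hX.shn, hX.2 s s0 s1, hX.2 t t0 t1, z4, z3]; linear_combination ze_sq
    · push_cast at *
      exact ⟨s + 1, t, abs_le.2 ⟨by linarith, by linarith⟩, fun X hX => by rw [hX.1]; ring⟩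
  · have a1 : a ≤ 2 := hI (by push_cast; linarith)
    have a2 : 1 ≤ a := hI (by push_cast; linarith)
    have a3 : b ≤ 1 := hI (by push_cast; linarith)
    have a4 : -1 ≤ b := hI (by push_cast; linarith)
    obtain ⟨rfl, rfl⟩ | ⟨rfl, rfl⟩ : a = 2 ∧ b = -1 ∨ a = 1 ∧ b = 1 := by omega
    · push_cast at *
      refine ⟨1 - s + (5 : ℕ), t + (6 : ℕ), abs_le.2 ⟨by push_cast; linarith,
        by push_cast; linarith⟩, fun X hX => ?_⟩
      rw [hX.shn, hX.shn, hX.2 s s0 s1, z2, z5, z6]; linear_combination ze_sq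
    · push_cast at *
      refine ⟨s + (2 : ℕ), 1 - t + (3 : ℕ), abs_le.2 ⟨by push_cast; linarith,
        by push_cast; linarith⟩, fun X hX => ?_⟩
      rw [hX.shn, hX.shn, hX.2 t t0 t1, z3]; ring
  · have a1 : a ≤ 2 := hI (by push_cast; linarith)
    have a2 : 0 ≤ a := hI (by push_cast; linarith)
    have a3 : a + b ≤ 2 := hI (by push_cast; linarith)
    have a4 : 2 ≤ a + b := hI (by push_cast; linarith)
    obtain ⟨rfl, rfl⟩ : a = 1 ∧ b = 1 := by omega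
    push_cast at *
    exact ⟨1 - s, t, abs_le.2 ⟨by linarith, by linarith⟩, fun X hX => by
      rw [hX.2 s s0 s1, z3]; ring⟩
  · have a1 : a ≤ 1 := hI (by push_cast; linarith)
    have a2 : -1 ≤ a := hI (by push_cast; linarith)
    have a3 : b ≤ 2 := hI (by push_cast; linarith)
    have a4 : 1 ≤ b := hI (by push_cast; linarith)
    obtain ⟨rfl, rfl⟩ | ⟨rfl, rfl⟩ : a = 1 ∧ b = 1 ∨ a = -1 ∧ b = 2 := by omega
    · push_cast at *
      refine ⟨s + (4 : ℕ), 1 - t + (3 : ℕ), abs_le.2 ⟨by push_cast; linarith,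
        by push_cast; linarith⟩, fun X hX => ?_⟩
      rw [hX.shn, hX.shn, hX.2 t t0 t1, z3]; ring
    · push_cast at *
      refine ⟨1 - s + 1, t, abs_le.2 ⟨by linarith, by linarith⟩, fun X hX => ?_⟩
      rw [hX.1, hX.2 s s0 s1, z4]; linear_combination -ze_sq
  · have a1 : a ≤ 0 := hI (by push_cast; linarith)
    have a2 : -1 ≤ a := hI (by push_cast; linarith)
    have a3 : b ≤ 2 := hI (by push_cast; linarith)
    have a4 : 0 ≤ b := hI (by push_cast; linarith)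
    obtain ⟨rfl, rfl⟩ | ⟨rfl, rfl⟩ : a = 0 ∧ b = 0 ∨ a = -1 ∧ b = 2 := by omega
    · push_cast at *
      refine ⟨s + (5 : ℕ), t + (6 : ℕ), abs_le.2 ⟨by push_cast; linarith,
        by push_cast; linarith⟩, fun X hX => ?_⟩
      rw [hX.shn, hX.shn, z6]; ring
    · push_cast at *
      refine ⟨1 - s + (2 : ℕ), 1 - t + (3 : ℕ), abs_le.2 ⟨by push_cast; linarith,
        by push_cast; linarith⟩, fun X hX => ?_⟩
      rw [hX.shn, hX.shn, hX.2 s s0 s1, hX.2 t t0 t1, z2, z3, z5]; linear_combination -ze_sq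

def IsL (l : ℂ) : Prop := ∃ a b : ℤ, (a - b) % 3 = 0 ∧ l = a + b * ze

lemma IsL.ze {l : ℂ} (h : IsL l) : IsL (ze * l) := by
  obtain ⟨a, b, h, rfl⟩ := h
  exact ⟨-b, a + b, by omega, by push_cast; linear_combination b * ze_sq⟩

lemma IsL.pow {l : ℂ} (h : IsL l) (n : ℕ) : IsL (MP_a14c6f_co.ze ^ n * l) := by
  induction n with
  | zero => simpa
  | succ n ih => rw [pow_succ', mul_assoc]; exact ih.ze

lemma IsL.add {l m : ℂ} (h : IsL l) (h' : IsL m) : IsL (l + m) := by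
  obtain ⟨a, b, h, rfl⟩ := h
  obtain ⟨c, d, h', rfl⟩ := h'
  exact ⟨a + c, b + d, by omega, by push_cast; ring⟩

lemma IsL.neg {l : ℂ} (h : IsL l) : IsL (-l) := by
  obtain ⟨a, b, h, rfl⟩ := h
  exact ⟨-a, -b, by omega, by push_cast; ring⟩

lemma zmod (n : ℤ) : ∃ r : ℕ, r < 6 ∧ ze ^ n = ze ^ r := by
  refine ⟨(n % 6).toNat, by omega, ?_⟩
  rw [← zpow_natCast, show ((n % 6).toNat : ℤ) = n % 6 by omega]
  conv_lhs => rw [← Int.mul_ediv_add_emod n 6, zpow_add₀ ze_ne, zpow_mul]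
  rw [show ze ^ (6 : ℤ) = 1 by exact_mod_cast z6, one_zpow, one_mul]

lemma base {B : ℝ → ℂ} (hB : Sym B) (e : ∀ s, 0 ≤ s → s ≤ 1 → B s = ed s) {l : ℂ} (hl : IsL l)
    {s t : ℝ} (h : ‖l + B s - B t‖ ≤ 1 / 20) : ∃ u v : ℝ, |u - v| ≤ 8 * ‖l + B s - B t‖ ∧
      ∀ X, Sym X → l + X s - X t = X u - X v := by
  obtain ⟨r, hr, e1⟩ := zmod (⌊s⌋ - ⌊t⌋)
  obtain ⟨k, -, e2⟩ := zmod (-⌊t⌋)
  obtain ⟨a, b, hab, e3⟩ := hl.pow k
  have s0 := Int.fract_nonneg s
  have s1 := (Int.fract_lt_one s).le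
  have t0 := Int.fract_nonneg t
  have t1 := (Int.fract_lt_one t).le
  have k1 : ∀ X, Sym X → l + X s - X t =
      ze ^ ⌊t⌋ * (a + b * ze + ze ^ r * X (Int.fract s) - X (Int.fract t)) := fun X hX => by
    have := zpow_ne_zero ⌊t⌋ ze_ne
    conv_lhs => rw [← Int.fract_add_floor s, ← Int.fract_add_floor t, hX.sh, hX.sh]
    rw [← e3, ← e1, ← e2, zpow_sub₀ ze_ne, zpow_neg]; field_simp
  have k2 : ‖l + B s - B t‖ = ‖a + b * ze + ze ^ r * ed (Int.fract s) - ed (Int.fract t)‖ := by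
    rw [k1 B hB, norm_mul, norm_zpow, ze_norm, one_zpow, one_mul, e _ s0 s1, e _ t0 t1]
  obtain ⟨u, v, h1, h2⟩ := core hab s0 s1 t0 t1 (ρ := 2 * ‖l + B s - B t‖) (by linarith) hr
    (k2 ▸ al_le _) (k2 ▸ be_le _)
  refine ⟨u + ⌊t⌋, v + ⌊t⌋, by rw [add_sub_add_right_eq_sub]; linarith, fun X hX => ?_⟩
  rw [k1 X hX, h2 X hX, hX.sh, hX.sh, mul_sub]

lemma ex_base : ∃ B, Good 1 B ∧ ∀ s, 0 ≤ s → s ≤ 1 → B s = ed s := by
  obtain ⟨d, p, h⟩ := ex_dat (q := 1) (a := 0) one_pos rfl rfl ⟨0, 1, rfl⟩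
  have : p 1 = 1 := by have := h.ps 0; simpa [h.p0, h.d0] using this
  refine ⟨_, ⟨0, d, p, ze - 1, h, by rw [this, mul_one], fun _ => rfl⟩, fun s s0 s1 => ?_⟩
  rw [L_on p 0 (by simpa) (by simpa), zero_add, this, h.p0, ed]; push_cast; ring

end Pool.Agent.H.MP_a14c6f_co
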