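import Pool.Agent.H.MP_a14c6f_co.D

set_option autoImplicit false

namespace Pool.Agent.H.MP_a14c6f_co

open Complex ComplexConjugate Set

noncomputable def N (z : ℂ) : ℝ := max |al z| (max |be z| |al z + be z|)

def Hx : Set ℂ := {z | N z ≤ 1}

lemma al_cont : Continuous al := by unfold al; fun_prop
lemma be_cont : Continuous be := by unfold be; fun_prop
lemma N_cont : Continuous N := by
  have := al_cont; have := be_cont; unfold N; fun_prop

lemma N_nn (z : ℂ) : 0 ≤ N z := (abs_nonneg _).trans (le_max_left _ _)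

lemma N_mul {t : ℝ} (ht : 0 ≤ t) (z : ℂ) : N (t * z) = t * N z := by
  simp only [N, al_mul, be_mul, ← mul_add, abs_mul, abs_of_nonneg ht, mul_max_of_nonneg _ _ ht]

lemma N_le {z : ℂ} {r : ℝ} : N z ≤ r ↔ |al z| ≤ r ∧ |be z| ≤ r ∧ |al z + be z| ≤ r := by
  simp [N]

lemma N_add (z w : ℂ) : N (z + w) ≤ N z + N w := by
  obtain ⟨a1, a2, a3⟩ := N_le.1 (le_refl (N z))
  obtain ⟨b1, b2, b3⟩ := N_le.1 (le_refl (N w))
  rw [N_le, al_add, be_add, add_add_add_comm]
  exact ⟨(abs_add_le _ _).trans (add_le_add a1 b1), (abs_add_le _ _).trans (add_le_add a2 b2),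
    (abs_add_le _ _).trans (add_le_add a3 b3)⟩

lemma N_ze (z : ℂ) : N (ze * z) = N z := by
  rw [N, N, al_ze, be_ze, abs_neg, show -be z + (al z + be z) = al z by ring, max_comm,
    max_comm |al z + be z|, max_assoc, max_comm |al z + be z|]

lemma N_pow (n : ℕ) (z : ℂ) : N (ze ^ n * z) = N z := by
  induction n with
  | zero => simp
  | succ n ih => rw [pow_succ', mul_assoc, N_ze, ih]

lemma norm_le_N (z : ℂ) : ‖z‖ ≤ 2 * N z := by
  obtain ⟨a1, a2, -⟩ := N_le.1 (le_refl (N z))
  have := norm_add_le (al z : ℂ) (be z * ze)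
  rw [← pt_eq, norm_mul, ze_norm, Complex.norm_real, Complex.norm_real, Real.norm_eq_abs,
    Real.norm_eq_abs] at this
  linarith

lemma conv (c v : ℂ) : Convex ℝ {z | N ((z - c) * v) ≤ 1} := by
  intro x hx y hy a b ha hb hab
  have := N_add (a * ((x - c) * v)) (b * ((y - c) * v))
  rw [N_mul ha, N_mul hb] at this
  have e : (a • x + b • y - c) * v = a * ((x - c) * v) + b * ((y - c) * v) := by
    have : (a : ℂ) + b = 1 := by exact_mod_cast hab
    simp only [Complex.real_smul]; linear_combination c * v * this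
  simp only [mem_ofPred_eq] at *
  rw [e]; nlinarith

lemma H_conv : Convex ℝ Hx := by simpa [Hx] using conv 0 1

lemma H_closed : IsClosed Hx := isClosed_le N_cont continuous_const

lemma H_cpt : IsCompact Hx :=
  (isCompact_closedBall (0 : ℂ) 2).of_isClosed_subset H_closed fun z hz => by
    have : N z ≤ 1 := hz
    simpa using by linarith [norm_le_N z]

lemma H_int : interior Hx = {z | N z < 1} := by
  refine subset_antisymm (fun z hz => ?_)
    (interior_maximal (fun z hz => show N z ≤ 1 from le_of_lt hz) (isOpen_lt N_cont continuous_const))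
  have h1 : N z ≤ 1 := interior_subset (s := Hx) hz
  refine lt_of_le_of_ne h1 fun h => ?_
  have c : Continuous fun t : ℝ => (t : ℂ) * z := by fun_prop
  have h2 : ∀ᶠ t : ℝ in nhds 1, (t : ℂ) * z ∈ Hx :=
    c.continuousAt.preimage_mem_nhds (by simpa using mem_interior_iff_mem_nhds.1 hz)
  obtain ⟨t, h3, h4⟩ := ((h2.filter_mono (nhdsWithin_le_nhds (s := Ioi 1))).and
    self_mem_nhdsWithin).exists
  have h5 : N (t * z) ≤ 1 := h3
  have h4 : 1 < t := h4
  rw [N_mul (by linarith), h] at h5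
  linarith

lemma N_ed {s : ℝ} (s0 : 0 ≤ s) (s1 : s ≤ 1) : N (ed s) = 1 := by
  rw [N, ed, al_pt, be_pt, sub_add_cancel, abs_one, abs_of_nonneg s0,
    abs_of_nonneg (by linarith), max_eq_right s1, max_eq_right (by linarith)]

lemma N_one {z : ℂ} (h : N z = 1) : ∃ (k : ℕ) (s : ℝ), 0 ≤ s ∧ s ≤ 1 ∧ z = ze ^ k * ed s := by
  obtain ⟨a1, a2, a3⟩ := N_le.1 h.le
  rw [abs_le] at a1 a2 a3
  have e := pt_eq z
  have : |al z| = 1 ∨ |be z| = 1 ∨ |al z + be z| = 1 := by
    rw [N] at h
    rcases max_eq_iff.1 h with h | h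
    · exact Or.inl h.1
    · exact Or.inr ((max_eq_iff.1 h.1).imp And.left And.left)
  simp only [abs_eq zero_le_one] at this
  generalize al z = x at *
  generalize be z = y at *
  rcases this with (h | h) | (h | h) | (h | h)
  · refine ⟨5, y + 1, by linarith, by linarith, ?_⟩
    rw [e, h, z5, ed]; push_cast; linear_combination (y + 1 : ℂ) * ze_sq
  · refine ⟨2, 1 - y, by linarith, by linarith, ?_⟩
    rw [e, h, z2, ed]; push_cast; linear_combination (y - 1 : ℂ) * ze_sq
  · refine ⟨1, -x, by linarith, by linarith, ?_⟩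
    rw [e, h, ed]; push_cast; linear_combination (x : ℂ) * ze_sq
  · refine ⟨4, x, by linarith, by linarith, ?_⟩
    rw [e, h, z4, ed]; push_cast; linear_combination (x : ℂ) * ze_sq
  · refine ⟨0, y, by linarith, by linarith, ?_⟩
    rw [e, show x = 1 - y by linarith, ed]; push_cast; ring
  · refine ⟨3, -y, by linarith, by linarith, ?_⟩
    rw [e, show x = -1 - y by linarith, z3, ed]; push_cast; ring

lemma range_B {B : ℝ → ℂ} (hB : Sym B) (e : ∀ s, 0 ≤ s → s ≤ 1 → B s = ed s) :
    range B = {z | N z = 1} := by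
  ext z
  constructor
  · rintro ⟨s, rfl⟩
    obtain ⟨r, -, e1⟩ := zmod ⌊s⌋
    show N (B s) = 1
    rw [← Int.fract_add_floor s, hB.sh, e1, N_pow,
      e _ (Int.fract_nonneg s) (Int.fract_lt_one s).le,
      N_ed (Int.fract_nonneg s) (Int.fract_lt_one s).le]
  · intro h
    obtain ⟨k, s, s0, s1, rfl⟩ := N_one h
    exact ⟨s + k, by rw [hB.shn, e s s0 s1]⟩

lemma polar {z : ℂ} (h : 0 < N z) : ∃ y, N y = 1 ∧ z = N z * y := by
  refine ⟨((N z)⁻¹ : ℝ) * z, by rw [N_mul (by positivity), inv_mul_cancel₀ h.ne'], ?_⟩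
  have : (N z : ℂ) ≠ 0 := by exact_mod_cast h.ne'
  push_cast; field_simp

lemma ext_conn : IsPreconnected {z | 1 < N z} := by
  obtain ⟨B, hB, e⟩ := ex_base
  have hr := range_B hB.sym e
  have := hB.cont
  have h := ((isPreconnected_Ioi (a := (1 : ℝ))).prod (isPreconnected_univ (α := ℝ))).image
    (fun x : ℝ × ℝ => (x.1 : ℂ) * B x.2) (by fun_prop)
  convert h using 1
  ext z
  constructor
  · intro hz
    have hz : 1 < N z := hz
    obtain ⟨y, h1, h2⟩ := polar (zero_lt_one.trans hz)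
    obtain ⟨s, rfl⟩ : y ∈ range B := hr ▸ h1
    exact ⟨(N z, s), ⟨hz, trivial⟩, h2.symm⟩
  · rintro ⟨⟨t, s⟩, ⟨h1, -⟩, rfl⟩
    have h1 : 1 < t := h1
    have : N (B s) = 1 := by have : B s ∈ range B := ⟨s, rfl⟩; rwa [hr] at this
    show 1 < N (t * B s)
    rwa [N_mul (by linarith), this, mul_one]

lemma cover (z : ℂ) : ∃ a b : ℤ, (a - b) % 3 = 0 ∧ z - (a + b * ze) ∈ Hx := by
  have k : ∀ a b : ℤ, |al z - a| ≤ 1 → |be z - b| ≤ 1 → |al z - a + (be z - b)| ≤ 1 →
      z - (a + b * ze) ∈ Hx := fun a b h1 h2 h3 => by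
    have e1 : al (a + b * ze) = a := by exact_mod_cast al_pt a b
    have e2 : be (a + b * ze) = b := by exact_mod_cast be_pt a b
    show N _ ≤ 1
    rw [N_le, al_sub, be_sub, e1, e2]; exact ⟨h1, h2, h3⟩
  have f1 := Int.floor_le (al z)
  have f2 := Int.lt_floor_add_one (al z)
  have f3 := Int.floor_le (be z)
  have f4 := Int.lt_floor_add_one (be z)
  generalize ⌊al z⌋ = i at *
  generalize ⌊be z⌋ = j at *
  simp only [abs_le] at k
  obtain h | h | h : (i - j) % 3 = 0 ∨ (i + 1 - j) % 3 = 0 ∨ (i - (j + 1)) % 3 = 0 := by omega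
  · rcases le_total (al z + be z) (i + j + 1) with g | g
    · exact ⟨i, j, h, k _ _ ⟨by linarith, by linarith⟩ ⟨by linarith, by linarith⟩
        ⟨by linarith, by linarith⟩⟩
    · refine ⟨i + 1, j + 1, by omega, k _ _ ?_ ?_ ?_⟩ <;> push_cast <;> constructor <;> linarith
  · refine ⟨i + 1, j, h, k _ _ ?_ ?_ ?_⟩ <;> push_cast <;> constructor <;> linarith
  · refine ⟨i, j + 1, h, k _ _ ?_ ?_ ?_⟩ <;> push_cast <;> constructor <;> linarith

lemma sep {a b : ℤ} (h : (a - b) % 3 = 0) (h1 : N (a + b * ze) < 2) : a = 0 ∧ b = 0 := by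
  have e1 : al (a + b * ze) = a := by exact_mod_cast al_pt a b
  have e2 : be (a + b * ze) = b := by exact_mod_cast be_pt a b
  simp only [N, e1, e2, max_lt_iff] at h1
  obtain ⟨h1, h2, h3⟩ := h1
  have h1 : |a| < 2 := by exact_mod_cast h1
  have h2 : |b| < 2 := by exact_mod_cast h2
  have h3 : |a + b| < 2 := by exact_mod_cast h3
  rw [abs_lt] at h1 h2 h3
  omega

lemma hexline {c w z : ℂ} (hw : w ≠ 0)
    (h1 : z ∈ convexHull ℝ (range fun k : Fin 6 => c + w * ze ^ (k : ℕ)))
    (h2 : z ∉ interior (convexHull ℝ (range fun k : Fin 6 => c + w * ze ^ (k : ℕ)))) :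
    ∃ k : Fin 6, al ((z - c) * (w * ze ^ (k : ℕ))⁻¹) + be ((z - c) * (w * ze ^ (k : ℕ))⁻¹) = 1 := by
  set K := convexHull ℝ (range fun k : Fin 6 => c + w * ze ^ (k : ℕ))
  have hK : Convex ℝ K := convex_convexHull _ _
  have m : ∀ n : ℕ, c + w * ze ^ n ∈ K := fun n => by
    obtain ⟨r, hr, e⟩ := zmod n
    rw [zpow_natCast] at e
    exact subset_convexHull _ _ ⟨⟨r, hr⟩, by rw [e]⟩
  have m0 : c ∈ K := by
    have := hK (m 0) (m 3) (a := 1 / 2) (b := 1 / 2) (by norm_num) (by norm_num) (by norm_num)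
    convert this using 1
    simp only [Complex.real_smul, z3]; push_cast; ring
  have a1 : N ((z - c) * w⁻¹) ≤ 1 := convexHull_min (by
    rintro _ ⟨k, rfl⟩
    have := N_pow k (ed 0)
    rw [N_ed le_rfl zero_le_one] at this
    show N _ ≤ 1
    rw [← this]; apply le_of_eq; congr 1; simp [ed]; field_simp) (conv c w⁻¹) h1
  have a2 : N ((z - c) * w⁻¹) = 1 := by
    by_contra hh
    refine h2 (interior_maximal (t := {z | N ((z - c) * w⁻¹) < 1}) (fun y hy => ?_)
      (isOpen_lt (N_cont.comp (by fun_prop)) continuous_const) (lt_of_le_of_ne a1 hh))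
    have hy : N ((y - c) * w⁻¹) < 1 := hy
    rcases (N_nn ((y - c) * w⁻¹)).eq_or_lt with h | h
    · have := norm_le_N ((y - c) * w⁻¹)
      rw [← h, mul_zero, norm_le_zero_iff, mul_eq_zero, sub_eq_zero] at this
      rw [this.resolve_right (inv_ne_zero hw)]; exact m0
    · obtain ⟨x, hx, e⟩ := polar h
      obtain ⟨k, s, s0, s1, rfl⟩ := N_one hx
      have := hK m0 (hK (m k) (m (k + 1)) (sub_nonneg.2 s1) s0 (by ring))
        (sub_nonneg.2 hy.le) h.le (by ring)
      convert this using 1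
      generalize N ((y - c) * w⁻¹) = t at *
      simp only [Complex.real_smul, ed] at *
      push_cast at *
      linear_combination w * e - (y - c) * mul_inv_cancel₀ hw
  obtain ⟨k, s, -, -, e⟩ := N_one a2
  obtain ⟨r, hr, e1⟩ := zmod k
  rw [zpow_natCast] at e1
  refine ⟨⟨r, hr⟩, ?_⟩
  have : (z - c) * (w * ze ^ r)⁻¹ = ed s := by
    have := pow_ne_zero r ze_ne
    rw [mul_inv, ← mul_assoc, e, e1]; field_simp
  rw [this, ed, al_pt, be_pt]; ring

lemma colin {c v x y z : ℂ} (hv : v ≠ 0) (h1 : al ((x - c) * v) + be ((x - c) * v) = 1)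
    (h2 : al ((y - c) * v) + be ((y - c) * v) = 1) (h3 : al ((z - c) * v) + be ((z - c) * v) = 1) :
    ((y - x) * conj (z - x)).im = 0 := by
  have k : ∀ u : ℂ, al ((u - c) * v) + be ((u - c) * v) = 1 →
      ((u - x) * v).re = -((u - x) * v).im * (√3 / 3) := fun u h => by
    have : al ((u - x) * v) + be ((u - x) * v) = 0 := by
      rw [show (u - x) * v = (u - c) * v - (x - c) * v by ring, al_sub, be_sub]; linarith
    rw [al, be] at this; linarith
  have : ((y - x) * v * conj ((z - x) * v)).im = 0 := by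
    rw [Complex.mul_im, conj_im, conj_re, k y h2, k z h3]; ring
  rw [map_mul, show (y - x) * v * (conj (z - x) * conj v) = v * conj v * ((y - x) * conj (z - x))
    by ring, Complex.mul_conj, Complex.im_ofReal_mul] at this
  exact (mul_eq_zero.1 this).resolve_left fun h => hv (Complex.normSq_eq_zero.1 h)

end Pool.Agent.H.MP_a14c6f_co
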