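import Pool.Agent.H.MP_a14c6f_co.E

set_option autoImplicit false

namespace Pool.Agent.H.MP_a14c6f_co

open Complex ComplexConjugate Set BoundedContinuousFunction

lemma IsL.zero : IsL 0 := ⟨0, 0, rfl, by simp⟩

lemma mcs {X : ℝ → ℂ} {f : ℝ → ℝ} {ε : ℝ} (b : ∀ s, |f s| ≤ ε)
    (lip : ∀ l, IsL l → ∀ s t, f t - f s ≤ 7 / 10 * ‖l + X s - X t‖) :
    ∃ M : ℂ → ℝ, (∀ x y, |M x - M y| ≤ 7 / 10 * ‖x - y‖) ∧ (∀ x, |M x| ≤ ε) ∧
      (∀ l, IsL l → ∀ x, M (x + l) = M x) ∧ ∀ s, M (X s) = f s := by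
  set A : ℂ → Set ℝ := fun x => {r | ∃ l s, IsL l ∧ r = f s + 7 / 10 * ‖l + X s - x‖} with hA
  have ne : ∀ x, (A x).Nonempty := fun x => ⟨_, 0, 0, IsL.zero, rfl⟩
  have lb : ∀ x, -ε ∈ lowerBounds (A x) := by
    rintro x _ ⟨l, s, -, rfl⟩
    linarith [(abs_le.1 (b s)).1, norm_nonneg (l + X s - x)]
  have e0 : 0 ≤ ε := (abs_nonneg _).trans (b 0)
  have l1 : ∀ x y, sInf (A x) - 7 / 10 * ‖x - y‖ ≤ sInf (A y) := fun x y =>
    le_csInf (ne y) (by
      rintro _ ⟨l, s, hl, rfl⟩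
      have := csInf_le ⟨_, lb x⟩ (show _ ∈ A x from ⟨l, s, hl, rfl⟩)
      have h2 := norm_sub_le_norm_sub_add_norm_sub (l + X s) y x
      rw [norm_sub_rev y] at h2
      linarith)
  refine ⟨fun x => min ε (sInf (A x)), fun x y => ?_, fun x => ?_, fun l hl x => ?_, fun s => ?_⟩
  · refine (abs_min_sub_min_le_max _ _ _ _).trans (max_le (by simp) (abs_le.2 ⟨?_, ?_⟩))
    · have := l1 y x; rw [norm_sub_rev] at this; linarith
    · linarith [l1 x y]
  · exact abs_le.2 ⟨le_min (by linarith) (le_csInf (ne x) (lb x)), min_le_left _ _⟩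
  · have : A (x + l) = A x := by
      ext r
      constructor
      · rintro ⟨m, s, hm, rfl⟩
        exact ⟨m + -l, s, hm.add hl.neg, by congr 3; ring⟩
      · rintro ⟨m, s, hm, rfl⟩
        exact ⟨m + l, s, hm.add hl, by congr 3; ring⟩
    simp only [this]
  · have : sInf (A (X s)) = f s := IsLeast.csInf_eq ⟨⟨0, s, IsL.zero, by simp⟩, by
      rintro _ ⟨l, t, hl, rfl⟩
      linarith [lip l hl t s]⟩
    simp only [this]
    exact min_eq_right (abs_le.1 (b s)).2

lemma extend {X δ : ℝ → ℂ} {ε : ℝ} (hX : ∀ s, ∀ n : ℕ, X (s + n) = ze ^ n * X s)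
    (hδ : ∀ s, ∀ n : ℕ, δ (s + n) = ze ^ n * δ s) (b : ∀ s, ‖δ s‖ ≤ ε)
    (lip : ∀ l, IsL l → ∀ s t, ‖δ s - δ t‖ ≤ 7 / 10 * ‖l + X s - X t‖) :
    ∃ v : ℂ → ℂ, (∀ x y, ‖v x - v y‖ ≤ 99 / 100 * ‖x - y‖) ∧ (∀ x, ‖v x‖ ≤ 2 * ε) ∧
      (∀ l, IsL l → ∀ x, v (x + l) = v x) ∧ (∀ x, v (ze * x) = ze * v x) ∧ ∀ s, v (X s) = δ s := by
  obtain ⟨M1, a1, a2, a3, a4⟩ := mcs (X := X) (f := fun s => (δ s).re)
    (fun s => (Complex.abs_re_le_norm _).trans (b s)) fun l hl s t => by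
      have := Complex.re_le_norm (δ t - δ s)
      rw [norm_sub_rev, sub_re] at this
      exact this.trans (lip l hl s t)
  obtain ⟨M2, b1, b2, b3, b4⟩ := mcs (X := X) (f := fun s => (δ s).im)
    (fun s => (Complex.abs_im_le_norm _).trans (b s)) fun l hl s t => by
      have := Complex.im_le_norm (δ t - δ s)
      rw [norm_sub_rev, sub_im] at this
      exact this.trans (lip l hl s t)
  set w : ℂ → ℂ := fun x => ⟨M1 x, M2 x⟩ with hw
  have c1 : ∀ x y, ‖w x - w y‖ ≤ 99 / 100 * ‖x - y‖ := fun x y => by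
    apply le_of_sq_le_sq _ (by positivity)
    rw [Complex.sq_norm, Complex.normSq_apply]
    have h1 := abs_le.1 (a1 x y)
    have h2 := abs_le.1 (b1 x y)
    simp only [hw, sub_re, sub_im]
    nlinarith [norm_nonneg (x - y)]
  have c2 : ∀ x, ‖w x‖ ≤ 2 * ε := fun x => by
    linarith [Complex.norm_le_abs_re_add_abs_im (w x), a2 x, b2 x]
  have av : ∀ (g : ℕ → ℂ) (C : ℝ), (∀ k, ‖g k‖ ≤ C) →
      ‖1 / 6 * ∑ k ∈ Finset.range 6, (ze ^ k)⁻¹ * g k‖ ≤ C := fun g C h => by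
    have := norm_sum_le_of_le (Finset.range 6) (f := fun k => (ze ^ k)⁻¹ * g k) (n := fun _ => C)
      fun k _ => by simpa [ze_norm] using h k
    rw [norm_mul]; simp at this ⊢; linarith
  refine ⟨fun x => 1 / 6 * ∑ k ∈ Finset.range 6, (ze ^ k)⁻¹ * w (ze ^ k * x), fun x y => ?_,
    fun x => av _ _ fun k => c2 _, fun l hl x => ?_, fun x => ?_, fun s => ?_⟩
  · rw [← mul_sub, ← Finset.sum_sub_distrib]
    simp only [← mul_sub]
    refine av _ _ fun k => (c1 _ _).trans_eq ?_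
    rw [← mul_sub, norm_mul, norm_pow, ze_norm, one_pow, one_mul]
  · simp only [hw, mul_add, a3 _ (hl.pow _), b3 _ (hl.pow _)]
  · have h1 := Finset.sum_range_succ (fun k => (ze ^ k)⁻¹ * w (ze ^ k * x)) 6
    rw [Finset.sum_range_succ', z6, pow_zero, add_left_inj] at h1
    beta_reduce
    rw [← h1, mul_left_comm, Finset.mul_sum _ _ ze]
    congr 1
    refine Finset.sum_congr rfl fun k _ => ?_
    have := ze_ne
    rw [pow_succ, mul_assoc (ze ^ k)]; field_simp
  · have : ∀ k : ℕ, (ze ^ k)⁻¹ * w (ze ^ k * X s) = δ s := fun k => by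
      rw [← hX, hw]
      simp only [a4, b4]
      rw [Complex.eta, hδ, inv_mul_cancel_left₀ (pow_ne_zero _ ze_ne)]
    simp only [this]; simp

def St (B : ℝ → ℂ) (q : ℤ) (u : ℂ →ᵇ ℂ) : Prop :=
  (∀ l, IsL l → ∀ x, u (x + l) = u x) ∧ (∀ x, u (ze * x) = ze * u x) ∧
    (∀ y, ∃ x, x + u x = y) ∧ (∃ κ, 0 < κ ∧ ∀ x y, κ * ‖x - y‖ ≤ ‖x + u x - (y + u y)‖) ∧
      Good q fun s => B s + u (B s)

lemma step {B : ℝ → ℂ} (hB : Sym B) (e : ∀ s, 0 ≤ s → s ≤ 1 → B s = ed s) {q : ℤ} {u : ℂ →ᵇ ℂ}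
    (h : St B q u) {ε : ℝ} (hε : 0 < ε) (N : ℝ) :
    ∃ (Q : ℤ) (u' : ℂ →ᵇ ℂ), St B Q u' ∧ N ≤ Q ∧ dist u u' ≤ ε := by
  obtain ⟨h1, h2, h3, ⟨κ, κ0, h4⟩, h5⟩ := h
  have hq : (0 : ℝ) < q := by exact_mod_cast h5.pos
  set η := κ * min (1 / 20) (1 / (8 * (q : ℝ))) with hη
  have η0 : 0 < η := by positivity
  obtain ⟨Q, Y, g1, g2, g3, g4⟩ := refine h5 (ε := min (ε / 2) (7 / 20 * η)) (by positivity) N
  set X : ℝ → ℂ := fun s => B s + u (B s) with hX
  obtain ⟨v, v1, v2, v3, v4, v5⟩ := extend (X := X) (δ := fun s => Y s - X s) h5.sym.shn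
    (fun s n => by rw [h5.sym.shn, g1.sym.shn, mul_sub]) g3 fun l hl s t => by
      rcases le_or_gt η ‖l + X s - X t‖ with c | c
      · linarith [norm_sub_le (Y s - X s) (Y t - X t), g3 s, g3 t, min_le_right (ε / 2) (7 / 20 * η)]
      · have k := h4 (B s + l) (B t)
        rw [h1 l hl, show B s + l + u (B s) - (B t + u (B t)) = l + X s - X t by simp [hX]; ring,
          add_comm (B s)] at k
        have k2 := lt_of_mul_lt_mul_left (k.trans_lt c) κ0.le
        rw [lt_min_iff, lt_div_iff₀ (by positivity : 0 < 8 * (q : ℝ))] at k2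
        obtain ⟨a, b, k3, k4⟩ := base hB e hl k2.1.le
        have := g4 a b (k3.trans (by rw [le_div_iff₀ hq]; linarith [k2.2]))
        rw [k4 X h5.sym]
        convert this using 2
        linear_combination k4 Y g1.sym - k4 X h5.sym
  have vl : LipschitzWith (99 / 100) v := LipschitzWith.of_dist_le_mul fun x y => by
    simpa [dist_eq_norm] using v1 x y
  have vc := vl.continuous
  refine ⟨Q, u + ofNormedAddCommGroup (fun x => v (x + u x)) (by fun_prop) _ fun x => v2 _,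
    ⟨fun l hl x => ?_, fun x => ?_, fun y => ?_, ⟨κ / 100, by positivity, fun x y => ?_⟩, ?_⟩,
    g2, ?_⟩
  · simp only [coe_add, Pi.add_apply, coe_ofNormedAddCommGroup, h1 l hl]
    rw [add_right_comm, v3 l hl]
  · simp only [coe_add, Pi.add_apply, coe_ofNormedAddCommGroup, h2]
    rw [← mul_add, v4, mul_add]
  · have : ContractingWith (99 / 100) fun x => y - v x :=
      ⟨by norm_num, LipschitzWith.of_dist_le_mul fun a b => by
        simpa [dist_eq_norm, norm_sub_rev] using v1 a b⟩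
    obtain ⟨x, hx⟩ := h3 (this.fixedPoint _)
    refine ⟨x, ?_⟩
    have : _ = _ := this.fixedPoint_isFixedPt
    simp only [coe_add, Pi.add_apply, coe_ofNormedAddCommGroup]
    rw [← add_assoc, hx]; linear_combination -this
  · simp only [coe_add, Pi.add_apply, coe_ofNormedAddCommGroup]
    have k1 := h4 x y
    have k2 := v1 (x + u x) (y + u y)
    have k3 := norm_sub_le (x + (u x + v (x + u x)) - (y + (u y + v (y + u y))))
      (v (x + u x) - v (y + u y))
    rw [show x + (u x + v (x + u x)) - (y + (u y + v (y + u y))) - (v (x + u x) - v (y + u y))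
      = x + u x - (y + u y) by ring] at k3
    linarith
  · convert g1 using 2 with s
    simp only [coe_add, Pi.add_apply, coe_ofNormedAddCommGroup]
    rw [v5 s]; ring
  · rw [dist_le hε.le]
    intro x
    simp only [coe_add, Pi.add_apply, coe_ofNormedAddCommGroup, dist_self_add_right]
    linarith [v2 (x + u x), min_le_left (ε / 2) (7 / 20 * η)]

lemma baire {E ι : Type*} [MetricSpace E] [CompleteSpace E] [Countable ι] {S : Set E}
    (hS : S.Nonempty) (W : ι → Set E) (ho : ∀ i, IsOpen (W i))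
    (hd : ∀ i, S ⊆ closure (S ∩ W i)) : ∃ u ∈ closure S, ∀ i, u ∈ W i := by
  have : CompleteSpace (closure S) := isClosed_closure.completeSpace_coe
  have : Nonempty (closure S) := hS.closure.to_subtype
  obtain ⟨u, hu⟩ := (dense_iInter_of_isOpen (f := fun i => (Subtype.val : closure S → E) ⁻¹' W i)
    (fun i => (ho i).preimage continuous_subtype_val) fun i => by
      rw [Subtype.dense_iff, Subtype.image_preimage_coe]
      exact closure_minimal ((hd i).trans (closure_mono (inter_subset_inter_left _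
        subset_closure))) isClosed_closure).nonempty
  exact ⟨u, u.2, fun i => mem_iInter.1 hu i⟩

end Pool.Agent.H.MP_a14c6f_co
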