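import Pool.Agent.H.MP_a14c6f_co.F

set_option autoImplicit false

namespace Pool.Agent.H.MP_a14c6f_co

open Complex ComplexConjugate Set BoundedContinuousFunction Metric

lemma closed_ex {X Y : Type*} [TopologicalSpace X] [TopologicalSpace Y] [CompactSpace Y]
    {P : X → Y → Prop} (h : IsClosed {z : X × Y | P z.1 z.2}) : IsClosed {x | ∃ y, P x y} := by
  convert isClosedMap_fst_of_compactSpace _ h using 1
  ext x; simp

lemma limit : ∃ (B : ℝ → ℂ) (Φ : ℂ ≃ₜ ℂ), Continuous B ∧ (∀ s, N (B s) = 1) ∧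
    (∀ l, IsL l → ∀ x, Φ (x + l) = Φ x + l) ∧ (∀ x, Φ (ze * x) = ze * Φ x) ∧
    (∃ C, ∀ x, ‖Φ x - x‖ ≤ C) ∧
    (∃ w : ℂ, ‖w‖ = 1 ∧ ∀ x, N x = 1 → ∃ y, N y = 1 ∧ Φ y = w * conj (Φ x)) ∧
    ∀ a b : ℝ, a < b → ∃ r ∈ Icc a b, ∃ s ∈ Icc a b, ∃ t ∈ Icc a b,
      ((Φ (B s) - Φ (B r)) * conj (Φ (B t) - Φ (B r))).im ≠ 0 := by
  obtain ⟨B, hB, e⟩ := ex_base
  have hr := range_B hB.sym e
  have hN : ∀ s, N (B s) = 1 := fun s => by have : B s ∈ range B := ⟨s, rfl⟩; rwa [hr] at this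
  set S : Set (ℂ →ᵇ ℂ) := {u | ∃ q, St B q u} with hS
  obtain ⟨u, hu, hW⟩ := baire (S := S) ⟨0, 1, by simp, by simp, by simp, ⟨1, one_pos, by simp⟩,
      by simpa using hB⟩
    (fun i : ℕ × ℚ => {u | ∃ δ : ℝ, 0 < δ ∧ ∀ x y, 1 / ((i.1 : ℝ) + 1) ≤ ‖x - y‖ →
        δ ≤ ‖x + u x - (y + u y)‖} ∩
      {u | ∃ r s t : Icc (i.2 : ℝ) (i.2 + 1 / (i.1 + 1)), ((B s + u (B s) - (B r + u (B r))) *
        conj (B t + u (B t) - (B r + u (B r)))).im ≠ 0})
    (fun i => IsOpen.inter (by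
      rw [Metric.isOpen_iff]
      rintro u ⟨δ, δ0, h⟩
      refine ⟨δ / 3, by positivity, fun v hv => ⟨δ / 3, by positivity, fun x y hxy => ?_⟩⟩
      have h1 := (dist_coe_le_dist (f := v) (g := u) x).trans_lt hv
      have h2 := (dist_coe_le_dist (f := v) (g := u) y).trans_lt hv
      rw [dist_eq_norm] at h1 h2
      have h3 := norm_sub_le (x + v x - (y + v y)) (v x - u x - (v y - u y))
      rw [show x + v x - (y + v y) - (v x - u x - (v y - u y)) = x + u x - (y + u y) by ring] at h3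
      linarith [h x y hxy, norm_sub_le (v x - u x) (v y - u y)]) (by
      simp only [ofPred_exists]
      exact isOpen_iUnion fun r => isOpen_iUnion fun s => isOpen_iUnion fun t =>
        isOpen_ne_fun (by fun_prop) continuous_const))
    (by
      rintro ⟨n, a⟩ u ⟨q, hu⟩
      rw [Metric.mem_closure_iff]
      intro ε hε
      obtain ⟨Q, v, h1, h2, h3⟩ := step hB.sym e hu (half_pos hε) (3 * (n + 1))
      refine ⟨v, ⟨⟨Q, h1⟩, ?_, ?_⟩, by linarith⟩
      · obtain ⟨κ, κ0, h4⟩ := h1.2.2.2.1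
        exact ⟨κ * (1 / (n + 1)), by positivity, fun x y h =>
          (mul_le_mul_of_nonneg_left h κ0.le).trans (h4 x y)⟩
      · have hQ : (0 : ℝ) < Q := by exact_mod_cast h1.2.2.2.2.pos
        have f1 := Int.le_ceil ((a : ℝ) * Q)
        have f2 := Int.ceil_lt_add_one ((a : ℝ) * Q)
        have m : ∀ k : ℝ, 0 ≤ k → k ≤ 2 →
            (⌈(a : ℝ) * Q⌉ + k) / Q ∈ Icc (a : ℝ) (a + 1 / (n + 1)) := fun k k0 k1 => by
          have : 3 ≤ 1 / ((n : ℝ) + 1) * Q := by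
            rw [one_div, ← div_eq_inv_mul, le_div_iff₀ (by positivity)]; linarith
          constructor
          · rw [le_div_iff₀ hQ]; linarith
          · rw [div_le_iff₀ hQ]; linarith
        exact ⟨⟨_, by simpa using m 0 le_rfl (by norm_num)⟩, ⟨_, m 1 (by norm_num) (by norm_num)⟩,
          ⟨_, m 2 (by norm_num) le_rfl⟩, h1.2.2.2.2.corner ⌈(a : ℝ) * Q⌉⟩)
  have c1 : u ∈ {u : ℂ →ᵇ ℂ | ∀ l, IsL l → ∀ x, u (x + l) = u x} := by
    refine closure_minimal (fun v (hv : v ∈ S) => hv.elim fun q h => h.1) ?_ hu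
    show IsClosed {u : ℂ →ᵇ ℂ | ∀ l, IsL l → ∀ x, u (x + l) = u x}
    simp only [ofPred_forall]
    exact isClosed_iInter fun l => isClosed_iInter fun _ => isClosed_iInter fun x =>
      isClosed_eq (by fun_prop) (by fun_prop)
  have c2 : u ∈ {u : ℂ →ᵇ ℂ | ∀ x, u (ze * x) = ze * u x} := by
    refine closure_minimal (fun v (hv : v ∈ S) => hv.elim fun q h => h.2.1) ?_ hu
    show IsClosed {u : ℂ →ᵇ ℂ | ∀ x, u (ze * x) = ze * u x}
    simp only [ofPred_forall]
    exact isClosed_iInter fun x => isClosed_eq (by fun_prop) (by fun_prop)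
  have : CompactSpace {z | N z = 1} := isCompact_iff_compactSpace.1
    (H_cpt.of_isClosed_subset (isClosed_eq N_cont continuous_const) fun z hz => le_of_eq hz)
  have c3 : u ∈ {u : ℂ →ᵇ ℂ | ∃ w : sphere (0 : ℂ) 1, ∀ x, N x = 1 → ∃ y : {z | N z = 1},
      y + u y = w * conj (x + u x)} := by
    refine closure_minimal (fun v (hv : v ∈ S) => hv.elim fun q h => ?_) (closed_ex ?_) hu
    · obtain ⟨w, hw, k⟩ := h.2.2.2.2.mir
      refine ⟨⟨w, by simpa⟩, fun x hx => ?_⟩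
      obtain ⟨s, rfl⟩ : x ∈ range B := hr ▸ hx
      obtain ⟨t, ht⟩ := k s
      exact ⟨⟨B t, hN t⟩, ht⟩
    · simp only [ofPred_forall]
      exact isClosed_iInter fun x => isClosed_iInter fun _ => closed_ex
        (isClosed_eq (by fun_prop) (by fun_prop))
  have cont : Continuous fun x => x + u x := by fun_prop
  have cl : IsClosedMap fun x => x + u x := by
    refine IsProperMap.isClosedMap (isProperMap_iff_tendsto_cocompact.2 ⟨cont, ?_⟩)
    rw [← cobounded_eq_cocompact, ← tendsto_norm_atTop_iff_cobounded]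
    refine Filter.tendsto_atTop_mono (f := fun x => ‖x‖ + -‖u‖) (fun x => ?_)
      (Filter.tendsto_atTop_add_const_right _ _ tendsto_norm_cobounded_atTop)
    have := norm_sub_le (x + u x) (u x)
    rw [add_sub_cancel_right] at this
    linarith [u.norm_coe_le_norm x]
  have hom : IsHomeomorph fun x => x + u x := by
    rw [isHomeomorph_iff_continuous_isClosedMap_bijective]
    refine ⟨cont, cl, fun x y hxy => ?_, fun y => ?_⟩
    · by_contra h
      obtain ⟨n, hn⟩ := exists_nat_one_div_lt (norm_pos_iff.2 (sub_ne_zero.2 h))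
      obtain ⟨δ, δ0, k⟩ := (hW (n, 0)).1
      have := k x y hn.le
      beta_reduce at hxy
      rw [hxy, sub_self, norm_zero] at this
      linarith
    · refine cl.isClosed_range.closure_subset (Metric.mem_closure_iff.2 fun ε hε => ?_)
      obtain ⟨v, ⟨q, h⟩, hv⟩ := Metric.mem_closure_iff.1 hu ε hε
      obtain ⟨x, rfl⟩ := h.2.2.1 y
      refine ⟨_, ⟨x, rfl⟩, ?_⟩
      rw [dist_add_left, dist_comm]
      exact (dist_coe_le_dist x).trans_lt hv
  have hΦ : ∀ x, hom.homeomorph _ x = x + u x := fun _ => rfl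
  refine ⟨B, hom.homeomorph _, hB.cont, hN, fun l hl x => ?_, fun x => ?_, ⟨‖u‖, fun x => ?_⟩, ?_,
    fun a b hab => ?_⟩ <;> simp only [hΦ]
  · rw [c1 l hl]; ring
  · rw [c2, mul_add]
  · simpa using u.norm_coe_le_norm x
  · obtain ⟨w, k⟩ := c3
    exact ⟨w, by simp, fun x hx => (k x hx).elim fun y hy => ⟨y, y.2, hy⟩⟩
  · obtain ⟨c, h1, h2⟩ := exists_rat_btwn hab
    obtain ⟨n, hn⟩ := exists_nat_one_div_lt (sub_pos.2 h2)
    obtain ⟨r, s, t, k⟩ := (hW (n, c)).2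
    have m : Icc (c : ℝ) (c + 1 / (n + 1)) ⊆ Icc a b := Icc_subset_Icc h1.le (by linarith)
    exact ⟨r, m r.2, s, m s.2, t, m t.2, k⟩

end Pool.Agent.H.MP_a14c6f_co
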